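import Pool.Agent.H937.QS.Stm2
import Pool.Graph.R_seed8.W559.Wr.StmR

/-!
Project QS, third part: statements with complete paper proofs: glueing of the families for the
affine charts of a projective resolution, and the case of three points.
-/

set_option autoImplicit false

open scoped Matrix TensorProduct
open Pool.Agent.W559.Wr

universe u v w

namespace Pool.Agent.H937.QS

/-- The values of the elements of the subalgebra `B` of `K` at `n` generic points. -/
noncomputable def evK {k K M : Type u} [Field k] [Field K] [Algebra k K] [Field M] [Algebra k M]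
    {n : ℕ} (e : Fin n → K →ₐ[k] M) (B : Subalgebra k K) : B →ₐ[k] (Fin n → M) :=
  AlgHom.pi fun q => (e q).comp B.val

/-- TASK ELL.  Finitely many linear forms suffice.
Proof.  Let `S ⊆ k` be a finite set with at least `n + 2` elements and `Λ` the finite set of all
`c : Fin (l + 1) → k` with values in `S`.  Consider `V 0, ..., V (n-1)` and, as an additional
valuation ring, `⊤`, together `n + 1` valuation rings `W q`.  For every `q` choose `i q` such that
`z i / z (i q) ∈ W q` for all `i` (an element of maximal valuation).  If `c` is such that for all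
`q` the element `x q = ∑ j, c j • (z j / z (i q))` of `W q` is a unit of `W q` then
`∑ j, c j • z j ≠ 0` and `z i / ∑ j, c j • z j = (z i / z (i q)) / x q ∈ W q`.  For given `q` and
given values `c j`, `j ≠ i q`, there is at most one value of `c (i q)` in `S` for which `x q` is in
the maximal ideal (two such values differ by an element of `k ∩ 𝔪 = 0`); so at most
`|S| ^ l` of the `|S| ^ (l + 1)` elements of `Λ` are bad for `q`, and `(n + 1) |S| ^ l <
|S| ^ (l + 1)`. -/
def S_ELL : Prop := ∀ (k K : Type u) [Field k] [Infinite k] [Field K] [Algebra k K] (l : ℕ)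
  (z : Fin (l + 1) → K), (∀ i, z i ≠ 0) → ∀ n : ℕ, ∃ Λ : Finset (Fin (l + 1) → k),
  ∀ V : Fin n → ValuationSubring K, (∀ q, ∀ c : k, algebraMap k K c ∈ V q) →
  ∃ c ∈ Λ, ∑ i, c i • z i ≠ 0 ∧ ∀ q i, z i / ∑ j, c j • z j ∈ V q

/-- TASK LSM.  The chart of a blowup given by the nonvanishing of a linear form is smooth.
Proof.  Apply `Pool.Agent.W469.WR.Mb.smooth_all` (import Pool.Graph.R_seed8.W469.WR.Mb) with
`ι = AlgHom.id`, the algebra `A`, the family `Fin.cons (∑ i, c i • z i) z : Fin (l + 2) → K` and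
`J` the set of the indices of the `z i`: for `i ∈ J` the chart is
`A ⊔ adjoin (z j / z i)` since `(∑ c j • z j) / z i` is a linear combination of the `z j / z i`;
cover: for a valuation ring `V ⊇ A` (hence `⊇ k`) take `i` with `z i` of maximal valuation.  The
chart of the index `0` is `A ⊔ adjoin (z j / ℓ, ℓ / ℓ)`. -/
def S_LSM : Prop := ∀ (k K : Type u) [Field k] [Field K] [Algebra k K] (A : Subalgebra k K)
  (l : ℕ) (z : Fin (l + 1) → K), (∀ i, z i ≠ 0) → (∀ i, Algebra.Smooth k
    (A ⊔ Algebra.adjoin k (Set.range fun j => z j / z i) : Subalgebra k K)) →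
  ∀ c : Fin (l + 1) → k, ∑ i, c i • z i ≠ 0 → Algebra.Smooth k
    (A ⊔ Algebra.adjoin k (Set.range fun j => z j / ∑ i, c i • z i) : Subalgebra k K)

/-- TASK ESY.  Symmetric functions of elements with denominators.
Proof.  Let `ν = ∏ q, ev u q`, which is in `Esym k ev` (constant coefficient of
`∏ q, (X - ev u q)` up to sign).  The `x` with `ν ^ e * x ∈ Esym k ev` for some `e` form a subalgebra
`T`, so it suffices that the coefficients of `P = ∏ q, (X - ev' b' q)` are in `T`.  Let
`ev' b' q * ev u q ^ e = ev b q`.  Then `ν ^ e * P = ∏ q, (ev u q ^ e * X - ev b q)`.  For `c ∈ k`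
its value at `c` is `∏ q, ev (c u ^ e - b) q ∈ Esym k ev` (constant coefficient again).  A
polynomial over `M` whose values at all elements of the infinite field `k` are in the
`k`-subspace `Esym k ev` of `M` has its coefficients in this subspace (Lagrange interpolation or
inverse of a Vandermonde matrix over `k` for `degree + 1` different elements of `k`). -/
def S_ESY : Prop := ∀ (k B B' M : Type u) [Field k] [Infinite k] [CommRing B] [Algebra k B]
  [CommRing B'] [Algebra k B'] [Field M] [Algebra k M] (n : ℕ) (ev : B →ₐ[k] (Fin n → M))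
  (ev' : B' →ₐ[k] (Fin n → M)) (u : B), (∀ q, ev u q ≠ 0) → (∀ b', ev' b' ∈ LocF ev u) →
  ∀ x ∈ Esym k ev', ∃ e : ℕ, (∏ q, ev u q) ^ e * x ∈ Esym k ev

/-- TASK FG.  The algebra of symmetric functions is finitely generated.
Proof.  Let `E = Esym k ev` and `R = adjoin k {ev b q | b, q} ⊆ M`; `R` is finitely generated over
`k` (by the `ev t q` for generators `t` of `B`), and contains `E`.  Every `ev b q` is integral over
`E` (root of `∏ q, (X - ev b q)`), so `R` is integral and of finite type over `E`, hence a finite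
`E`-module.  By the Artin-Tate lemma `fg_of_fg_of_fg` (Mathlib, `Mathlib.RingTheory.Adjoin.Tower`)
`E` is finitely generated over the noetherian ring `k`. -/
def S_FG : Prop := ∀ (k B M : Type u) [Field k] [CommRing B] [Algebra k B]
  [Algebra.FiniteType k B] [Field M] [Algebra k M] (n : ℕ) (ev : B →ₐ[k] (Fin n → M)),
  (Esym k ev).FG

/-- TASK COP.  Tensor powers of subalgebras of `K` embed into `M`.
Proof.  `R = ⨂[k] _ : Fin n, B`, `j = PiTensorProduct.singleAlgHom`
(`Pool.Agent.H920R2.isCoprod_pi`, import Pool.Graph.R_seed8.H920R2.Cu10, gives `IsCop`), `γ` is given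
by the universal property.  `γ` is injective: it is the composition of `⨂ B → ⨂ K`, injective
(tensor products over a field of injective linear maps are injective: choose a linear left
inverse of `B → K` and use functoriality `PiTensorProduct.map`), with `mulM e`, injective by
`LDis e`.  (Compare `Pool.Agent.W839.Wr.Fin`.) -/
def S_COP : Prop := ∀ (k K M : Type u) [Field k] [Field K] [Algebra k K] [Field M] [Algebra k M]
  (n : ℕ) (e : Fin n → K →ₐ[k] M), LDis e → ∀ B : Subalgebra k K,
  ∃ (R : Type u) (_ : CommRing R) (_ : Algebra k R) (j : Fin n → (B →ₐ[k] R)) (γ : R →ₐ[k] M),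
    IsCop k j ∧ Function.Injective γ ∧ ∀ b q, γ (j q b) = e q b

/-- TASK FIX.  Symmetric functions and the field of invariants.
Proof.  `permGrp e ⊤` consists of the `σ` for which there is a permutation `g` with
`σ (e i x) = e (g i) x`; for every `g` there is such a `σ`
(`Pool.Agent.W45.WR.liftStm : LiftStm`, import Pool.Graph.R_seed8.W559.Wr.AllR), it is unique since
the `e i x` generate the field `M`, so the group is finite.  (1) `σ` permutes the factors of
`∏ q, (X - e q b)`.  (2) Let `x ∈ ⨆ i, B.map (e i)` be invariant; with `γ, R` as in `hCOP` (for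
`R = ⨂ B`), `x = γ t`.  For every permutation `g`, `γ (g t) = σ (γ t) = γ t` (both sides are
algebra homomorphisms in `t` which agree on the `j q b`; `g t` or `g⁻¹ t`, it does not matter), so
`g t = t`.  By `hSYM`, `t` is a linear combination of tensors `b ⊗ ... ⊗ b`, and `γ` of this is
`∏ q, e q b`, up to sign the constant coefficient of `∏ q, (X - e q b)`.  (The `R` of `hCOP` is
abstract; redo its construction with `R = ⨂ B`, or use the uniqueness of coproducts to compare.)
(3) The elements `a / b` with `a, b ∈ R' = ⨆ i, B.map (e i)` form a subfield which contains all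
`e i x`, so it is `M`.  Let `x = a / b` be invariant.  Then `b' = ∏ σ, σ b`, the product over the
finite group, is invariant and in `R'` (`σ` maps `R'` to `R'`), and `a' = x * b' =
a * ∏_{σ ≠ 1} σ b ∈ R'` is invariant, too; use (2). -/
def S_FIX : Prop := ∀ (k K M : Type u) [Field k] [Infinite k] [Field K] [Algebra k K] [Field M]
  [Algebra k M] (n : ℕ) (e : Fin n → K →ₐ[k] M), LDis e → ⨆ i, (e i).fieldRange = ⊤ →
  ∀ B : Subalgebra k K,
  (∀ x ∈ Esym k (evK e B),
    x ∈ IntermediateField.fixedField (permGrp e (⊤ : Subgroup (Equiv.Perm (Fin n))))) ∧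
  (∀ x ∈ (⨆ i, B.map (e i) : Subalgebra k M),
    x ∈ IntermediateField.fixedField (permGrp e (⊤ : Subgroup (Equiv.Perm (Fin n)))) →
    x ∈ Esym k (evK e B)) ∧
  ((∀ x : K, ∃ a ∈ B, ∃ b ∈ B, b ≠ 0 ∧ x = a / b) →
    ∀ x ∈ IntermediateField.fixedField (permGrp e (⊤ : Subgroup (Equiv.Perm (Fin n)))),
    ∃ a ∈ Esym k (evK e B), ∃ b ∈ Esym k (evK e B), b ≠ 0 ∧ x = a / b)

/-- TASK MOD.  A projective model from a family with a covering set of smooth charts.
Proof.  Copy the second half of the proof of `mb` in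
Pool/Graph/R_seed8/W469/WR/Mb.lean (namespace Pool.Agent.W469.WR.Mb): `J` is not empty (cover
for `V = ⊤`), so the nonzero elements of the family can be numbered by `Fin (l + 1)`; as elements
of `L` they form the family `w`; `smooth_all L.val (A'.comap L.val) w` gives the smoothness of all
charts (`(ch A w m).map L.val` is the chart in `M`; zero elements of the family do not
contribute).  The last condition of `SPMR`: for `t ∈ J` the chart of `t` is contained in the
intermediate field generated by `A'` and the `w j / w 0`, and every element of `L` is a quotient of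
two elements of the chart. -/
def S_MOD : Prop := ∀ (k M : Type u) [Field k] [Field M] [Algebra k M]
  (L : IntermediateField k M) (A' : Subalgebra k M), (∀ x ∈ A', x ∈ L) →
  ∀ (T : Type) [Finite T] (ζ : T → M) (J : Set T), (∀ t, ζ t ∈ L) → (∀ t ∈ J, ζ t ≠ 0) →
  (∀ V : ValuationSubring M, (∀ x ∈ A', x ∈ V) → ∃ t ∈ J, ∀ t', ζ t' / ζ t ∈ V) →
  (∀ t ∈ J, Algebra.Smooth k
    (A' ⊔ Algebra.adjoin k (Set.range fun t' => ζ t' / ζ t) : Subalgebra k M)) →
  (∀ t ∈ J, ∀ x ∈ L,
    ∃ a ∈ (A' ⊔ Algebra.adjoin k (Set.range fun t' => ζ t' / ζ t) : Subalgebra k M),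
    ∃ b ∈ (A' ⊔ Algebra.adjoin k (Set.range fun t' => ζ t' / ζ t) : Subalgebra k M),
      b ≠ 0 ∧ x = a / b) →
  SPMR k L (A'.comap L.val)

/-- Existence of the families for all smooth affine models. -/
def FamProp (k : Type u) {K M : Type u} [Field k] [Field K] [Algebra k K] [Field M] [Algebra k M]
    {n : ℕ} (e : Fin n → K →ₐ[k] M) (Zp : Set (Fin n → M) → Set M) : Prop :=
  ∀ B : Subalgebra k K, Algebra.Smooth k B → (∀ x : K, ∃ a ∈ B, ∃ b ∈ B, b ≠ 0 ∧ x = a / b) →
    ∃ (I : Type) (_ : Finite I) (z : I → M) (S : Set I), IsFam k (evK e B) Zp z S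

/-- TASK GLUE.  Glueing.
Proof.  Let `l, z` be as in `SPMR k K A` and `Λ` as in `hELL` for the `z i` and `n`.  For `c ∈ Λ` with
`ℓ = ∑ c i • z i ≠ 0` let `B_ℓ = A ⊔ adjoin k (z j / ℓ)`, smooth by `hLSM`, with fraction field `K`
(the quotients of elements of `B_ℓ` form a subfield containing `k`, `A` and
`z j / z 0 = (z j / ℓ) / (z 0 / ℓ)`).  Let `I_ℓ, z^ℓ, S_ℓ` be the family from `FamProp`,
`E_ℓ = Esym k (evK e B_ℓ)`, finitely generated by `hFG`, `G_ℓ` a finite set of generators of `E_ℓ`
with `1 ∈ G_ℓ`, and `C_{ℓ,s} = E_ℓ ⊔ adjoin k (z^ℓ i / z^ℓ s)` for `s ∈ S_ℓ`, `z^ℓ s ≠ 0`.  Let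
`L` be the fixed field and `A' = (⨆ i, A.map (e i)) ∩ L`; by `hFIX` (1), (2), `A' = Esym k (evK e A)`
(`Esym k (evK e A) ⊆ ⨆ i, A.map (e i)` is clear), so `A' ⊆ E_ℓ`.  Let `ν_ℓ = ∏ q, e q ℓ ∈ L`, not
zero (`ν_ℓ ∈ L` by `hFIX` (1) for `B = ⊤`, it is up to sign a constant coefficient).
Transition: let `ℓ, ℓ'` be two of the forms, `u = ℓ' / ℓ = ∑ c' j • (z j / ℓ) ∈ B_ℓ`.  Every
element of `B_ℓ'` becomes an element of `B_ℓ` after multiplication by a power of `u` (the elements
with this property form a subalgebra which contains `A` and `z j / ℓ' = (z j / ℓ) / u`), so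
`evK e B_ℓ' b' ∈ LocF (evK e B_ℓ) u` for all `b'`.  By monotonicity `z^ℓ' i ∈ Zp (range ..) ⊆
Zp (LocF (evK e B_ℓ) u)`, so by the last property of the family for `B_ℓ`, for every `s ∈ S_ℓ` with
`z^ℓ s ≠ 0`, there is an exponent `E` with `ν_u ^ E * z^ℓ' i / z^ℓ s ∈ C_{ℓ,s}`,
`ν_u = ∏ q, e q u = ν_ℓ' / ν_ℓ`; and by `hESY`, `ν_u ^ E' * g' ∈ E_ℓ` for `g' ∈ G_ℓ'`.  As
`ν_u ∈ E_ℓ` exponents may be increased; as there are finitely many data there is one exponent `E`
such that `ν_u ^ E * g' * z^ℓ' i / z^ℓ s ∈ C_{ℓ,s}` for all `ℓ, ℓ', s, i, g'`.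
The family: `T = {(ℓ, i, g)}`, `ζ (ℓ, i, g) = ν_ℓ ^ E * g * z^ℓ i ∈ L`, and `J` the set of the
`(ℓ, s, 1)` with `s ∈ S_ℓ`, `z^ℓ s ≠ 0`.  The chart of `t = (ℓ, s, 1)` is `C_{ℓ,s}`: the quotients
`ζ t' / ζ t` are in it by the choice of `E`; conversely `g = ζ (ℓ, s, g) / ζ t` and
`z^ℓ i / z^ℓ s = ζ (ℓ, i, 1) / ζ t`.  It is smooth, and every element of `L` is a quotient of
elements of `E_ℓ` by `hFIX` (3).  Cover: let `V` be a valuation ring of `M` containing `A'`.  For
`a ∈ A` and all `q`, `e q a` is a root of `∏ q, (X - e q a)` with coefficients in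
`Esym k (evK e A) = A'`, so it is in `V`.  `hELL` for the `V q = V.comap (e q)` gives `ℓ` with
`z i / ℓ ∈ V q` for all `q`, so `e q (B_ℓ) ⊆ V`, `E_ℓ ⊆ V`, and the cover property of the family gives
`s ∈ S_ℓ` with `z^ℓ s ≠ 0` and `C_{ℓ,s} ⊆ V`; so `ζ t' / ζ t ∈ V`.  Apply `hMOD` (`T` must be in
`Type`: use `Λ` as a subtype of `Fin (l+1) → k`... replace it by `Fin N`).  Note
`A'.comap L.val = (⨆ i, A.map (e i)).comap L.val`. -/
def S_GLUE : Prop := ∀ (k K M : Type u) [Field k] [Infinite k] [Field K] [Algebra k K] [Field M]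
  [Algebra k M] (n : ℕ) (e : Fin n → K →ₐ[k] M), LDis e → ⨆ i, (e i).fieldRange = ⊤ →
  ∀ (Zp : Set (Fin n → M) → Set M), (∀ F F', F ⊆ F' → Zp F ⊆ Zp F') → FamProp k e Zp →
  ∀ A : Subalgebra k K, SPMR k K A →
  SPMR k (IntermediateField.fixedField (permGrp e (⊤ : Subgroup (Equiv.Perm (Fin n)))))
    ((⨆ i, A.map (e i)).comap (IntermediateField.fixedField
      (permGrp e (⊤ : Subgroup (Equiv.Perm (Fin n))))).val)

/-- TASK DIST.  The values of a nonconstant element at generic points are different, and the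
trivial case.
Proof.  (1) If `e p b = e q b` with `p ≠ q` then the two pure tensors with `b` at the place `p`
resp. `q` and `1` elsewhere have the same image under `mulM e`, so they are equal; as `1, b` are
linearly independent over `k` there is a linear form `φ` on `K` with `φ 1 = 0`, `φ b = 1` and one,
`ψ`, with `ψ 1 = 1`; apply `φ` at the place `p` and `ψ` elsewhere (`PiTensorProduct.lift` of a
product of linear forms): `(1) * ψ (1) ^ .. ≠ φ (1) * ... = 0`.  (2) If `k → K` is surjective then
all `e i` have image `k`, `M = k` since it is generated by the images (for `n = 0` the supremum is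
`⊥ = ⊤`), and in `SPMR` for the subfield `L` and any subalgebra `D` take `l = 0`, `z = 1`: the chart is
`D ⊔ adjoin {1}`, and every subalgebra of `L` is the image of `k`, which is smooth; the
intermediate field is `⊤` since everything comes from `k`. -/
def S_DIST : Prop := ∀ (k K M : Type u) [Field k] [Field K] [Algebra k K] [Field M] [Algebra k M]
  (n : ℕ) (e : Fin n → K →ₐ[k] M), LDis e →
  (∀ b : K, (∀ c : k, algebraMap k K c ≠ b) → Function.Injective fun q => e q b) ∧
  ((∀ x : K, ∃ c : k, algebraMap k K c = x) → ⨆ i, (e i).fieldRange = ⊤ →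
    ∀ (L : IntermediateField k M) (D : Subalgebra k L), SPMR k L D)

/-- TASK QQ4.  The symmetric group on four letters.
Proof.  Given `K, M, e, A` as in `QQR`.  If `k → K` is surjective use `hDIST` (2).  Otherwise apply
`hGLUE` with `Zp4` (monotone: clear).  `FamProp`: let `B` be smooth with fraction field `K`; it is
not contained in the image of `k`, so it contains `b0` not in the image of `k`, and the values
`e q b0` are different by `hDIST` (1).  Take `R, j, γ` from `hCOP`; `hFAM` with some `a : k`,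
`a ^ 2 ≠ a` (`k` is infinite), gives the family. -/
def S_QQ4 : Prop := ∀ (k : Type u) [Field k] [Infinite k],
  QQR k (Fin 4) (⊤ : Subgroup (Equiv.Perm (Fin 4)))

/-! ### Three points -/

/-- The multiplication matrices of a based cubic algebra. -/
def DF3 {S : Type u} [CommRing S] (a : Fin 6 → S) : Fin 3 → Matrix (Fin 3) (Fin 3) S :=
  ![1,
    !![0, a 2 * a 1 + a 3 * a 3 - a 0 * a 3 - a 1 * a 5, a 1 * a 4 - a 2 * a 3;
      1, a 0, a 2;
      0, a 1, a 3],
    !![0, a 1 * a 4 - a 2 * a 3, a 2 * a 2 + a 3 * a 4 - a 4 * a 0 - a 5 * a 2;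
      0, a 2, a 4;
      1, a 3, a 5]]

/-- The structure constants of the basis `N` of the functions on three points. -/
noncomputable def par3 {L : Type u} [Field L] (N : Matrix (Fin 3) (Fin 3) L) : Fin 6 → L :=
  ![(N⁻¹ *ᵥ fun q => N q 1 * N q 1) 1, (N⁻¹ *ᵥ fun q => N q 1 * N q 1) 2,
    (N⁻¹ *ᵥ fun q => N q 1 * N q 2) 1, (N⁻¹ *ᵥ fun q => N q 1 * N q 2) 2,
    (N⁻¹ *ᵥ fun q => N q 2 * N q 2) 1, (N⁻¹ *ᵥ fun q => N q 2 * N q 2) 2]

/-- The matrix of three generic points of the plane. -/
noncomputable def Tg3 (k : Type u) [Field k] :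
    Matrix (Fin 3) (Fin 3) (FractionRing (MvPolynomial (Fin 3 × Fin 2) k)) :=
  Matrix.of fun q => Fin.cons 1 fun l =>
    algebraMap (MvPolynomial (Fin 3 × Fin 2) k) _ (MvPolynomial.X (q, l))

/-- TASK STR3.  Based cubic algebras.
Proof.  (1), (2): polynomial identities, `ring`.  (3) is contained in `exists_struct` of
Pool/Agent/H413/RS/Struct.lean (`T = N`, with the same formulas `Cub.kA, kB, kC` for the constant
terms; by the uniqueness of coordinates the `a` there is `par3 N`): `N q i * N q l` expanded in the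
basis, with the constant terms determined by associativity.  (4) is `Tgen_det` and
`exists_struct_gen` of the same file (there `Tgen` is the same matrix), or repeat its proof. -/
def S_STR3 : Prop :=
  (∀ (S : Type u) [CommRing S] (a : Fin 6 → S), (∀ i j, DF3 a i * DF3 a j = DF3 a j * DF3 a i) ∧
    ∀ i m, DF3 a i m 0 = if m = i then 1 else 0) ∧
  (∀ (L : Type u) [Field L] (N : Matrix (Fin 3) (Fin 3) L), (∀ q, N q 0 = 1) → N.det ≠ 0 →
    ∀ q i l, N q i * N q l = ∑ m, N q m * DF3 (par3 N) i m l) ∧
  ∀ (k : Type u) [Field k], (Tg3 k).det ≠ 0 ∧ AlgebraicIndependent k (par3 (Tg3 k))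

/-- TASK CH3.  The charts for three points are smooth.
Proof.  Simplified version of `S_D`, `S_CH` (Stm2.lean) and `S_RET` (Stm.lean; proved in
Pool/Agent/H894/QS/RET.lean).  Let `L = FractionRing (MvPolynomial (Fin 3 × Fin 2) M)`,
`ι : M → L`, `φ : FractionRing (MvPolynomial (Fin 3 × Fin 2) k) → L` the map which maps variables to
variables, `T = (Tg3 k).map φ`.  `Pool.Agent.H413.RS.tensor_inj` gives the injectivity of
`productMap (ι ∘ γ) φ`.  By `hCORE` (`d = 2`, `σ = Fin 6`, `D` given by the matrices `DF3 X`,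
`a = par3 (Tg3 k)`, `hSTR3`) there is an injective `G : U = UU k B D → L` with
`G (yU b m) = (T⁻¹ *ᵥ ev' b) m`, `ev' = ι ∘ ev`, `yU b = (Uhom k B D b).v`, and `U` is smooth over
`k`.  Let `C = adjoin k {(N⁻¹ *ᵥ ev b) i} ⊆ M`.  The functions `b ↦ N⁻¹ *ᵥ ev b ∈ C ^ 3` form a
homomorphism to the based algebra with parameters `par3 N ∈ C` (these are coordinates of
`ev (m i * m j)`), so `Ulift` gives `π : U → C` with `π (yU b m) = (N⁻¹ *ᵥ ev b) m`.  Let
`γ = (yU (m l) i)_{i l}`, `h = det γ`; `π γ = 1`, `G h = det (ι N) / det T ≠ 0`.  Let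
`U' = Localization.Away h`, formally smooth over `k`, `G' : U' → L` injective, `π' : U' → C`.  For
`c = (N⁻¹ *ᵥ ev b) i` the element `(det γ)⁻¹ (adjugate γ *ᵥ yU b) i` of `U'` has the images `c` under
`π'` and `ι c` under `G'`.  As in `S_RET`, this gives a section `C → U'` of `π'`, so `C` is a retract
of the formally smooth algebra `U'`, of finite type, hence smooth. -/
def S_CH3 : Prop := ∀ (k B R M : Type u) [Field k] [CommRing B] [Algebra k B] [Algebra.Smooth k B]
  [CommRing R] [Algebra k R] (j : Fin 3 → (B →ₐ[k] R)), IsCop k j → ∀ [Field M] [Algebra k M]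
  (γ : R →ₐ[k] M), Function.Injective γ → ∀ ev : B →ₐ[k] (Fin 3 → M),
  (∀ b q, ev b q = γ (j q b)) → ∀ (m : Fin 3 → B), m 0 = 1 → ∀ N : Matrix (Fin 3) (Fin 3) M,
  (∀ q i, N q i = ev (m i) q) → N.det ≠ 0 →
  Algebra.Smooth k (Algebra.adjoin k {z : M | ∃ b i, z = (N⁻¹ *ᵥ ev b) i})

/-- The products of two alternants of functions from a set of functions. -/
def ZpD {M : Type u} [Field M] {n : ℕ} (F : Set (Fin n → M)) : Set M :=
  {ζ | ∃ h h' : Fin n → Fin n → M, (∀ i, h i ∈ F) ∧ (∀ i, h' i ∈ F) ∧
    ζ = (Matrix.of fun q i => h i q).det * (Matrix.of fun q i => h' i q).det}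

/-- TASK FAMD.  The family when the charts of all bases are smooth.
Proof.  Let `w : Fin (N + 1) → B`, `w 0 = 1`, be the spanning family from `hSPAN`, `E = Esym k ev`,
`δ h = det (ev (w (h r)) q)_{q r}` for `h : Fin (d + 1) → Fin (N + 1)`.  The family is
`z (h, h') = δ h * δ h'`, `S` is the set of the `(h, h)` with `h 0 = 0`.  (f1) `hTRC`, first part.
(f2) clear.  (f3) Let `V ⊇ E`.  Then `ev b q ∈ V` for all `b, q` (integrality).  Choose `h*` with `δ h*`
of maximal valuation.  `δ h* ≠ 0`, as the Vandermonde determinant of `1, b0, b0 ^ 2, ...` is not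
zero and is an `E`-linear combination of the `δ h`.  By Cramer's rule `ev 1 = 1` has coordinates
`c_r ∈ V` in the basis `ev (w (h* r))`, and since the values of `ev (w _)` are in `V` some `c_r` is a
unit of `V`.  Let `h1` be `h*` with `h* r` replaced by `0` and the places `0` and `r` exchanged:
`δ h1 = ± c_r δ h*`.  So `z i / z (h1, h1) ∈ V` for all `i`.  (f4) Let `s = (h, h)`, `h 0 = 0`,
`z s ≠ 0`, `N = (ev (w (h r)) q)_{q r}` and `C = adjoin k {(N⁻¹ *ᵥ ev b) i}`.  Then
`C = E ⊔ adjoin k (z i / z s)`: `E ⊆ C` by `hNORM`, `δ h' / δ h` is the determinant of coordinates, in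
`C`, so `z i / z s ∈ C`; conversely `(N⁻¹ *ᵥ ev (w l)) r = δ (h with h r replaced by l) / δ h =
z (.., h) / z s` (Cramer), and every `ev b` is an `E`-linear combination of the `ev (w l)`.  Use the
hypothesis on charts.  (f5) `hLOCC` for this `C` and `N`: the elements of `LocF ev u` have
coordinates in the subring `{x | ∃ e, (∏ q, ev u q) ^ e * x ∈ C}`, so `ζ / z s`, a product of two
determinants of coordinates, is in it. -/
def S_FAMD : Prop := ∀ (k B M : Type u) [Field k] [CommRing B] [Algebra k B]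
  [Algebra.FiniteType k B] [Field M] [Algebra k M] (d : ℕ) (ev : B →ₐ[k] (Fin (d + 1) → M)),
  (∀ (m : Fin (d + 1) → B), m 0 = 1 → ∀ N : Matrix (Fin (d + 1)) (Fin (d + 1)) M,
    (∀ q i, N q i = ev (m i) q) → N.det ≠ 0 →
    Algebra.Smooth k (Algebra.adjoin k {z : M | ∃ b i, z = (N⁻¹ *ᵥ ev b) i})) →
  ∀ b0 : B, Function.Injective (fun q => ev b0 q) →
  ∃ (I : Type) (_ : Finite I) (z : I → M) (S : Set I), IsFam k ev ZpD z S

/-- TASK QQ3.  The symmetric group on three letters.
Proof.  As `S_QQ4`: given `K, M, e, A` as in `QQR`.  If `k → K` is surjective use `hDIST` (2).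
Otherwise apply `hGLUE` with `ZpD` (monotone: clear).  `FamProp`: `B` is smooth with fraction field
`K`, so it contains `b0` not in the image of `k`, with different values `e q b0` (`hDIST` (1)).  Take
`R, j, γ` from `hCOP`; `hCH3` gives the hypothesis of `hFAMD` (`d = 2`; a smooth algebra is of
finite type). -/
def S_QQ3 : Prop := ∀ (k : Type u) [Field k] [Infinite k],
  QQR k (Fin 3) (⊤ : Subgroup (Equiv.Perm (Fin 3)))

end Pool.Agent.H937.QS
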