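import Pool.Graph.R_seed8.W559.Wr.FinR
import Pool.Graph.R_seed8.W839.Wr.Fin
import Pool.Agent.H937.QS.Stm3

/-!
The class of permutation groups.
-/

set_option autoImplicit false

open AlgebraicGeometry CategoryTheory TensorProduct Pool.Agent.H920R2 Pool.Agent.W559.Wr

universe u

namespace Pool.Agent.H937.QS

/-- The permutation groups which are obtained from symmetric groups on at most four letters,
Sylow `p`-subgroups of symmetric groups and cyclic groups generated by permutations `π` with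
`π ^ N = 1` by direct products, wreath products and relabelling. -/
inductive Adm (p N : ℕ) : (ι : Type) → Subgroup (Equiv.Perm ι) → Prop
  | symmetric (n : ℕ) (hn : n ≤ 4) : Adm p N (Fin n) ⊤
  | sylow (n : ℕ) (S : Sylow p (Equiv.Perm (Fin n))) : Adm p N (Fin n) S
  | cyclic (n : ℕ) (π : Equiv.Perm (Fin n)) (hπ : π ^ N = 1) :
      Adm p N (Fin n) (Subgroup.zpowers π)
  | product (ι ι' : Type) (P : Subgroup (Equiv.Perm ι)) (P' : Subgroup (Equiv.Perm ι')) :
      Adm p N ι P → Adm p N ι' P' → Adm p N (ι ⊕ ι') (prodGrp P P')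
  | wreath (ι ι' : Type) (P : Subgroup (Equiv.Perm ι)) (P' : Subgroup (Equiv.Perm ι')) :
      Adm p N ι P → Adm p N ι' P' → Adm p N (ι × ι') (wrGrp P P')
  | relabel (ι ι' : Type) (f : ι ≃ ι') (P : Subgroup (Equiv.Perm ι)) : Adm p N ι P →
      Adm p N ι' (P.map (f.permCongrHom : Equiv.Perm ι ≃* Equiv.Perm ι').toMonoidHom)

theorem Adm.finite {p N : ℕ} {ι : Type} {P : Subgroup (Equiv.Perm ι)} (h : Adm p N ι P) :
    Finite ι := by
  induction h with
  | symmetric n hn => infer_instance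
  | sylow n S => infer_instance
  | cyclic n π hπ => infer_instance
  | product ι ι' P P' _ _ h h' => exact inferInstance
  | wreath ι ι' P P' _ _ h h' => exact inferInstance
  | relabel ι ι' f P _ h => exact Finite.of_equiv ι f

lemma perm_one (n : ℕ) (hn : n ≤ 1) : (⊤ : Subgroup (Equiv.Perm (Fin n))) =
    Subgroup.zpowers 1 := by
  have hs : Subsingleton (Fin n) := Fin.subsingleton_iff_le_one.2 hn
  have hs2 : Subsingleton (Equiv.Perm (Fin n)) := inferInstance
  exact Subsingleton.elim _ _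

lemma perm_two : (⊤ : Subgroup (Equiv.Perm (Fin 2))) = Subgroup.zpowers (Equiv.swap 0 1) := by
  rw [eq_comm, eq_top_iff]
  intro σ _
  rw [Subgroup.mem_zpowers_iff]
  by_cases h : σ 0 = 0
  · refine ⟨0, ?_⟩
    rw [zpow_zero]
    apply Equiv.ext
    intro i
    have h1 : σ 1 ≠ 0 := fun h2 => absurd (σ.injective (h2.trans h.symm)) (by decide)
    fin_cases i
    · exact h.symm
    · change 1 = σ 1
      omega
  · refine ⟨1, ?_⟩
    rw [zpow_one]
    have h1 : σ 0 = 1 := by omega
    have h2 : σ 1 ≠ 1 := fun h2 => absurd (σ.injective (h2.trans h1.symm)) (by decide)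
    apply Equiv.ext
    intro i
    fin_cases i
    · change Equiv.swap (0 : Fin 2) 1 0 = σ 0
      rw [h1, Equiv.swap_apply_left]
    · change Equiv.swap (0 : Fin 2) 1 1 = σ 1
      rw [Equiv.swap_apply_right]
      omega

theorem qqR_small (hQQ3 : S_QQ3.{u}) (hQQ4 : S_QQ4.{u}) {k : Type u} [Field k] [Infinite k]
    {p : ℕ} (hp : p.Prime) (hpk : (p : k) = 0) (n : ℕ) (hn : n ≤ 4) :
    QQR k (Fin n) (⊤ : Subgroup (Equiv.Perm (Fin n))) := by
  have h1 : ∃ ζ : k, IsPrimitiveRoot ζ 1 := ⟨1, IsPrimitiveRoot.one⟩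
  have h1' : ((1 : ℕ) : k) ≠ 0 := by rw [Nat.cast_one]; exact one_ne_zero
  by_cases hn1 : n ≤ 1
  · rw [perm_one n hn1]
    exact cycR' k p 1 hp hpk h1' h1 n 1 (one_pow _)
  by_cases hn2 : n = 2
  · subst hn2
    rw [perm_two]
    have hsw : (Equiv.swap (0 : Fin 2) 1) ^ 2 = 1 := by
      rw [pow_two, Equiv.swap_mul_self]
    by_cases h2 : p = 2
    · refine cycR' k p 1 hp hpk h1' h1 2 _ ?_
      rw [h2, show 2 * 2 * 1 = 2 * 2 from rfl, pow_mul, hsw, one_pow]
    · haveI hc : CharP k p := by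
        haveI := Fact.mk hp
        obtain ⟨q, hq⟩ := CharP.exists k
        have h3 : q ∣ p := (CharP.cast_eq_zero_iff k q p).1 hpk
        rcases (Nat.dvd_prime hp).1 h3 with h4 | h4
        · subst h4
          exact absurd (CharP.cast_eq_zero k 1) h1'
        · rw [← h4]
          exact hq
      have hprim : IsPrimitiveRoot (-1 : k) 2 := IsPrimitiveRoot.neg_one p h2
      have h2k : ((2 : ℕ) : k) ≠ 0 := by
        intro h3
        have h4 := (CharP.cast_eq_zero_iff k p 2).1 h3
        exact h2 ((Nat.prime_dvd_prime_iff_eq hp Nat.prime_two).1 h4)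
      refine cycR' k p 2 hp hpk h2k ⟨-1, hprim⟩ 2 _ ?_
      rw [mul_comm, pow_mul, hsw, one_pow]
  by_cases hn3 : n = 3
  · subst hn3
    exact hQQ3 k
  · have hn4 : n = 4 := by omega
    subst hn4
    exact hQQ4 k

theorem qqR_of_adm (hQQ3 : S_QQ3.{u}) (hQQ4 : S_QQ4.{u}) {k : Type u} [Field k] [Infinite k]
    {p m : ℕ} (hp : p.Prime) (hpk : (p : k) = 0) (hm : (m : k) ≠ 0)
    (hζ : ∃ ζ : k, IsPrimitiveRoot ζ m) {ι : Type} {P : Subgroup (Equiv.Perm ι)}
    (h : Adm p (p * p * m) ι P) : ∀ i : Fintype ι, QQR k ι P := by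
  classical
  induction h with
  | symmetric n hn => exact fun i => QQR.congr _ _ (qqR_small hQQ3 hQQ4 hp hpk n hn)
  | sylow n S =>
    haveI := Fact.mk hp
    exact fun i => QQR.congr _ _ (sylR' k p hpk n S)
  | cyclic n π hπ => exact fun i => QQR.congr _ _ (cycR' k p m hp hpk hm hζ n π hπ)
  | product ι ι' P P' h1 h2 h h' =>
    intro i
    have := h1.finite
    have := h2.finite
    let i1 : Fintype ι := Fintype.ofFinite ι
    let i2 : Fintype ι' := Fintype.ofFinite ι'
    exact QQR.congr _ _ (sumR' k ι ι' P P' (h i1) (h' i2))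
  | wreath ι ι' P P' h1 h2 h h' =>
    intro i
    have := h1.finite
    have := h2.finite
    let i1 : Fintype ι := Fintype.ofFinite ι
    let i2 : Fintype ι' := Fintype.ofFinite ι'
    exact QQR.congr _ _ (wrR' k ι ι' P P' (h i1) (h' i2))
  | relabel ι ι' f P h1 h =>
    intro i
    have := h1.finite
    let i1 : Fintype ι := Fintype.ofFinite ι
    exact QQR.congr _ _ (relR' k ι ι' f P (h i1))

end Pool.Agent.H937.QS
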