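import Mathlib

/-!
Based commutative algebras of finite rank and the universal homomorphism from an algebra `B` to
such an algebra.
-/

set_option autoImplicit false

open scoped Matrix

universe u v w

namespace Pool.Agent.H937.QS

/-- The multiplication matrices of a based commutative algebra whose first basis element is the
identity. -/
structure MulData (d : ℕ) (S : Type u) [CommRing S] where
  F : Fin (d + 1) → Matrix (Fin (d + 1)) (Fin (d + 1)) S
  zero : F 0 = 1
  comm : ∀ i j, F i * F j = F j * F i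
  col : ∀ i m, F i m 0 = if m = i then 1 else 0

namespace MulData

variable {d : ℕ} {S : Type u} [CommRing S] (D : MulData d S)

/-- Multiplication by an element. -/
def M (x : Fin (d + 1) → S) : Matrix (Fin (d + 1)) (Fin (d + 1)) S := ∑ i, x i • D.F i

/-- the first basis vector -/
abbrev e0 : Fin (d + 1) → S := Pi.single 0 1

lemma M_e0 (x : Fin (d + 1) → S) : D.M x *ᵥ e0 = x := by
  funext m
  rw [Matrix.mulVec_single_one, Matrix.col_apply, M, Matrix.sum_apply]
  simp only [Matrix.smul_apply, D.col, smul_eq_mul, mul_ite, mul_one, mul_zero,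
    Finset.sum_ite_eq, Finset.mem_univ, if_true]

lemma F_e0 (i : Fin (d + 1)) : D.F i *ᵥ e0 = Pi.single i 1 := by
  funext m
  rw [Matrix.mulVec_single_one, Matrix.col_apply, D.col, Pi.single_apply]

lemma M_add (x y : Fin (d + 1) → S) : D.M (x + y) = D.M x + D.M y := by
  simp only [M, Pi.add_apply, add_smul, Finset.sum_add_distrib]

lemma M_zero : D.M 0 = 0 := by
  simp only [M, Pi.zero_apply, zero_smul, Finset.sum_const_zero]

lemma M_comm_F (x : Fin (d + 1) → S) (i : Fin (d + 1)) : D.F i * D.M x = D.M x * D.F i := by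
  simp only [M, Finset.mul_sum, Finset.sum_mul, Matrix.mul_smul, Matrix.smul_mul, D.comm i]

lemma M_comm (x y : Fin (d + 1) → S) : D.M x * D.M y = D.M y * D.M x := by
  rw [M]
  simp only [Finset.mul_sum, Finset.sum_mul, Matrix.mul_smul, Matrix.smul_mul, D.M_comm_F]

lemma eq_M (Z : Matrix (Fin (d + 1)) (Fin (d + 1)) S) (hZ : ∀ i, D.F i * Z = Z * D.F i) :
    Z = D.M (Z *ᵥ e0) := by
  have h : ∀ l, Z *ᵥ Pi.single l 1 = D.M (Z *ᵥ e0) *ᵥ Pi.single l 1 := by
    intro l
    rw [← D.F_e0 l, Matrix.mulVec_mulVec, Matrix.mulVec_mulVec, ← hZ, ← D.M_comm_F,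
      ← Matrix.mulVec_mulVec, ← Matrix.mulVec_mulVec, D.M_e0]
  ext m l
  have h1 := congrFun (h l) m
  rw [Matrix.mulVec_single_one, Matrix.mulVec_single_one] at h1
  exact h1

lemma M_mul (x y : Fin (d + 1) → S) : D.M (D.M x *ᵥ y) = D.M x * D.M y := by
  have h := D.eq_M (D.M x * D.M y) (fun i => by
    rw [← mul_assoc, D.M_comm_F, mul_assoc, D.M_comm_F, mul_assoc])
  rw [h, ← Matrix.mulVec_mulVec, D.M_e0]

lemma M_one : D.M e0 = 1 := by
  have h := D.eq_M 1 (fun i => by rw [mul_one, one_mul])
  rw [Matrix.one_mulVec] at h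
  exact h.symm

lemma mul_comm' (x y : Fin (d + 1) → S) : D.M x *ᵥ y = D.M y *ᵥ x := by
  conv_lhs => rw [← D.M_e0 y]
  conv_rhs => rw [← D.M_e0 x]
  rw [Matrix.mulVec_mulVec, Matrix.mulVec_mulVec, D.M_comm]

/-- Base change. -/
def map {S' : Type v} [CommRing S'] (f : S →+* S') : MulData d S' where
  F i := (D.F i).map f
  zero := by rw [D.zero, Matrix.map_one f (map_zero f) (map_one f)]
  comm i j := by rw [← Matrix.map_mul, ← Matrix.map_mul, D.comm]
  col i m := by
    rw [Matrix.map_apply, D.col]
    split_ifs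
    · exact map_one f
    · exact map_zero f

end MulData

/-- The based algebra. -/
@[ext] structure Al {d : ℕ} {S : Type u} [CommRing S] (D : MulData d S) where
  v : Fin (d + 1) → S

namespace Al

variable {d : ℕ} {S : Type u} [CommRing S] {D : MulData d S}

instance : Zero (Al D) := ⟨⟨0⟩⟩
instance : One (Al D) := ⟨⟨Pi.single 0 1⟩⟩
instance : Add (Al D) := ⟨fun x y => ⟨x.v + y.v⟩⟩
instance : Neg (Al D) := ⟨fun x => ⟨-x.v⟩⟩
instance : Mul (Al D) := ⟨fun x y => ⟨D.M x.v *ᵥ y.v⟩⟩

lemma zero_v : (0 : Al D).v = 0 := rfl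
lemma one_v : (1 : Al D).v = Pi.single 0 1 := rfl
lemma add_v (x y : Al D) : (x + y).v = x.v + y.v := rfl
lemma neg_v (x : Al D) : (-x).v = -x.v := rfl
lemma mul_v (x y : Al D) : (x * y).v = D.M x.v *ᵥ y.v := rfl

instance : CommRing (Al D) where
  add_assoc x y z := Al.ext (add_assoc _ _ _)
  zero_add x := Al.ext (zero_add _)
  add_zero x := Al.ext (add_zero _)
  nsmul := nsmulRec
  add_comm x y := Al.ext (add_comm _ _)
  left_distrib x y z := Al.ext (by
    change D.M x.v *ᵥ (y.v + z.v) = D.M x.v *ᵥ y.v + D.M x.v *ᵥ z.v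
    rw [Matrix.mulVec_add])
  right_distrib x y z := Al.ext (by
    change D.M (x.v + y.v) *ᵥ z.v = D.M x.v *ᵥ z.v + D.M y.v *ᵥ z.v
    rw [D.M_add, Matrix.add_mulVec])
  zero_mul x := Al.ext (by
    change D.M 0 *ᵥ x.v = 0
    rw [D.M_zero, Matrix.zero_mulVec])
  mul_zero x := Al.ext (by
    change D.M x.v *ᵥ 0 = 0
    rw [Matrix.mulVec_zero])
  mul_assoc x y z := Al.ext (by
    change D.M (D.M x.v *ᵥ y.v) *ᵥ z.v = D.M x.v *ᵥ (D.M y.v *ᵥ z.v)
    rw [D.M_mul, Matrix.mulVec_mulVec])
  one_mul x := Al.ext (by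
    change D.M MulData.e0 *ᵥ x.v = x.v
    rw [D.M_one, Matrix.one_mulVec])
  mul_one x := Al.ext (by
    change D.M x.v *ᵥ MulData.e0 = x.v
    rw [D.M_e0])
  zsmul := zsmulRec
  neg_add_cancel x := Al.ext (neg_add_cancel _)
  mul_comm x y := Al.ext (D.mul_comm' _ _)

lemma sub_v (x y : Al D) : (x - y).v = x.v - y.v := by
  rw [sub_eq_add_neg, add_v, neg_v, sub_eq_add_neg]

/-- The inclusion of the scalars. -/
def inc : S →+* Al D where
  toFun s := ⟨Pi.single 0 s⟩
  map_one' := rfl
  map_mul' x y := Al.ext (by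
    change Pi.single 0 (x * y) = D.M (Pi.single 0 x) *ᵥ Pi.single 0 y
    have h1 : (Pi.single 0 x : Fin (d + 1) → S) = x • MulData.e0 := by
      rw [MulData.e0, ← Pi.single_smul, smul_eq_mul, mul_one]
    have h2 : (Pi.single 0 y : Fin (d + 1) → S) = y • MulData.e0 := by
      rw [MulData.e0, ← Pi.single_smul, smul_eq_mul, mul_one]
    rw [h2, Matrix.mulVec_smul, D.M_e0, h1, smul_smul, MulData.e0, ← Pi.single_smul,
      smul_eq_mul, mul_one, mul_comm])
  map_zero' := Al.ext (by
    change Pi.single 0 0 = 0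
    exact Pi.single_zero 0)
  map_add' x y := Al.ext (by
    change (Pi.single 0 (x + y) : Fin (d + 1) → S) = Pi.single 0 x + Pi.single 0 y
    rw [Pi.single_add])

instance {k : Type v} [CommRing k] [Algebra k S] : Algebra k (Al D) :=
  (inc.comp (algebraMap k S)).toAlgebra

lemma algebraMap_v {k : Type v} [CommRing k] [Algebra k S] (c : k) :
    (algebraMap k (Al D) c).v = Pi.single 0 (algebraMap k S c) := rfl

/-- Functoriality. -/
def map {S' : Type w} [CommRing S'] {D' : MulData d S'} (f : S →+* S')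
    (h : ∀ i, (D.F i).map f = D'.F i) : Al D →+* Al D' where
  toFun x := ⟨fun i => f (x.v i)⟩
  map_one' := Al.ext (by
    funext i
    change f ((Pi.single 0 1 : Fin (d + 1) → S) i) = (Pi.single 0 1 : Fin (d + 1) → S') i
    rw [Pi.single_apply, Pi.single_apply]
    split_ifs
    · exact map_one f
    · exact map_zero f)
  map_mul' x y := Al.ext (by
    funext i
    change f ((D.M x.v *ᵥ y.v) i) = (D'.M (fun i => f (x.v i)) *ᵥ fun i => f (y.v i)) i
    have h1 : (D.M x.v).map f = D'.M (fun i => f (x.v i)) := by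
      ext m l
      rw [Matrix.map_apply, MulData.M, MulData.M, Matrix.sum_apply, Matrix.sum_apply, map_sum]
      refine Finset.sum_congr rfl fun j _ => ?_
      rw [Matrix.smul_apply, Matrix.smul_apply, smul_eq_mul, smul_eq_mul, map_mul, ← h j,
        Matrix.map_apply]
    rw [← h1]
    simp only [Matrix.mulVec, dotProduct, Matrix.map_apply, map_sum, map_mul])
  map_zero' := Al.ext (by
    funext i
    exact map_zero f)
  map_add' x y := Al.ext (by
    funext i
    exact map_add f _ _)

lemma map_v {S' : Type w} [CommRing S'] {D' : MulData d S'} (f : S →+* S')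
    (h : ∀ i, (D.F i).map f = D'.F i) (x : Al D) (i : Fin (d + 1)) :
    (map f h x).v i = f (x.v i) := rfl

end Al

section univ

variable (k : Type u) {P : Type u} (B : Type u) [CommRing k] [CommRing P] [Algebra k P]
  [CommRing B] [Algebra k B] {d : ℕ} (D : MulData d P)

/-- The polynomial ring on the coordinates of the universal homomorphism. -/
abbrev UQ (P B : Type u) (d : ℕ) [CommRing P] : Type u := MvPolynomial (B × Fin (d + 1)) P

/-- base change to an algebra -/
abbrev DU (S : Type u) [CommRing S] [Algebra P S] : MulData d S := D.map (algebraMap P S)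

noncomputable def Ygen (b : B) : Al (DU D (UQ P B d)) := ⟨fun m => MvPolynomial.X (b, m)⟩

/-- The relations. -/
def URel : Set (UQ P B d) :=
  {q | (∃ b b' : B, ∃ m, q = (Ygen B D (b + b') - (Ygen B D b + Ygen B D b')).v m) ∨
    (∃ b b' : B, ∃ m, q = (Ygen B D (b * b') - (Ygen B D b * Ygen B D b')).v m) ∨
    (∃ c : k, ∃ m, q = (Ygen B D (algebraMap k B c) - algebraMap k _ c).v m)}

/-- The universal algebra. -/
abbrev UU : Type u := UQ P B d ⧸ Ideal.span (URel k B D)

/-- Reduction modulo the relations. -/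
noncomputable def Ured : Al (DU D (UQ P B d)) →+* Al (DU D (UU k B D)) :=
  Al.map (Ideal.Quotient.mk (Ideal.span (URel k B D))) (fun i => by
    ext m l
    rfl)

lemma Ured_sub (x y : Al (DU D (UQ P B d))) (h : ∀ m, (x - y).v m ∈ URel k B D) :
    Ured k B D x = Ured k B D y := by
  rw [← sub_eq_zero, ← map_sub]
  apply Al.ext
  funext m
  change Ideal.Quotient.mk _ _ = 0
  rw [Ideal.Quotient.eq_zero_iff_mem]
  exact Ideal.subset_span (h m)

lemma Ured_add (b b' : B) : Ured k B D (Ygen B D (b + b')) =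
    Ured k B D (Ygen B D b) + Ured k B D (Ygen B D b') := by
  rw [← map_add]
  exact Ured_sub k B D _ _ fun m => Or.inl ⟨b, b', m, rfl⟩

lemma Ured_mul (b b' : B) : Ured k B D (Ygen B D (b * b')) =
    Ured k B D (Ygen B D b) * Ured k B D (Ygen B D b') := by
  rw [← map_mul]
  exact Ured_sub k B D _ _ fun m => Or.inr (Or.inl ⟨b, b', m, rfl⟩)

lemma Ured_alg (c : k) : Ured k B D (Ygen B D (algebraMap k B c)) =
    algebraMap k (Al (DU D (UU k B D))) c := by
  have h : Ured k B D (algebraMap k _ c) = algebraMap k (Al (DU D (UU k B D))) c := by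
    apply Al.ext
    funext m
    change Ideal.Quotient.mk _ ((Pi.single 0 (algebraMap k (UQ P B d) c) : Fin (d + 1) → _) m) =
      (Pi.single 0 (algebraMap k (UU k B D) c) : Fin (d + 1) → _) m
    rw [Pi.single_apply, Pi.single_apply]
    split_ifs
    · rfl
    · exact map_zero _
  rw [← h]
  exact Ured_sub k B D _ _ fun m => Or.inr (Or.inr ⟨c, m, rfl⟩)

/-- The universal homomorphism. -/
noncomputable def Uhom : B →ₐ[k] Al (DU D (UU k B D)) where
  toFun b := Ured k B D (Ygen B D b)
  map_one' := by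
    have h := Ured_alg k B D 1
    rw [map_one, map_one] at h
    exact h
  map_mul' := Ured_mul k B D
  map_zero' := by
    have h := Ured_alg k B D 0
    rw [map_zero, map_zero] at h
    exact h
  map_add' := Ured_add k B D
  commutes' := Ured_alg k B D

lemma Uhom_v (b : B) (m : Fin (d + 1)) :
    (Uhom k B D b).v m = Ideal.Quotient.mk _ (MvPolynomial.X (b, m)) := rfl

variable {k B D}

/-- The universal property. -/
theorem Ulift {S : Type u} [CommRing S] [Algebra P S] [Algebra k S] [IsScalarTower k P S]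
    (f : B →ₐ[k] Al (DU D S)) : ∃ F : UU k B D →ₐ[P] S,
      ∀ b m, F ((Uhom k B D b).v m) = (f b).v m := by
  classical
  let F0 : UQ P B d →ₐ[P] S := MvPolynomial.aeval (fun p : B × Fin (d + 1) => (f p.1).v p.2)
  have e0 : ∀ b m, F0 (MvPolynomial.X (b, m)) = (f b).v m := fun b m =>
    MvPolynomial.aeval_X _ _
  let G : Al (DU D (UQ P B d)) →+* Al (DU D S) :=
    Al.map F0.toRingHom (fun i => by
      ext m l
      exact F0.commutes _)
  have hG : ∀ b, G (Ygen B D b) = f b := by
    intro b
    apply Al.ext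
    funext m
    exact e0 b m
  have hGc : ∀ c : k, G (algebraMap k _ c) = algebraMap k _ c := by
    intro c
    apply Al.ext
    funext m
    change F0 ((Pi.single 0 (algebraMap k (UQ P B d) c) : Fin (d + 1) → _) m) =
      (Pi.single 0 (algebraMap k S c) : Fin (d + 1) → _) m
    rw [Pi.single_apply, Pi.single_apply]
    split_ifs
    · rw [IsScalarTower.algebraMap_apply k P (UQ P B d), F0.commutes,
        ← IsScalarTower.algebraMap_apply]
    · exact map_zero _
  have key : ∀ z : Al (DU D (UQ P B d)), G z = 0 → ∀ m, F0 (z.v m) = 0 := by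
    intro z hz m
    exact congrFun (congrArg Al.v hz) m
  have hI : ∀ q ∈ Ideal.span (URel k B D), F0 q = 0 := by
    intro q hq
    have hle : Ideal.span (URel k B D) ≤ RingHom.ker F0.toRingHom := by
      rw [Ideal.span_le]
      rintro q (⟨b, b', m, rfl⟩ | ⟨b, b', m, rfl⟩ | ⟨c, m, rfl⟩)
      · refine key _ ?_ m
        rw [map_sub, map_add, hG, hG, hG, map_add, sub_self]
      · refine key _ ?_ m
        rw [map_sub, map_mul, hG, hG, hG, map_mul, sub_self]
      · refine key _ ?_ m
        rw [map_sub, hG, hGc, AlgHom.commutes, sub_self]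
    exact hle hq
  exact ⟨Ideal.Quotient.liftₐ _ F0 hI, fun b m => e0 b m⟩

/-- The universal algebra is generated by the coordinates of the universal homomorphism at
generators of `B`. -/
theorem Ugen (s : Set B) (hs : Algebra.adjoin k s = ⊤) (T : Subalgebra P (UU k B D))
    (hT : ∀ b ∈ s, ∀ m, (Uhom k B D b).v m ∈ T) : T = ⊤ := by
  have hT' : ∀ b : B, ∀ m, (Uhom k B D b).v m ∈ T := by
    intro b
    have hb : b ∈ Algebra.adjoin k s := by rw [hs]; trivial
    induction hb using Algebra.adjoin_induction with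
    | mem x hx => exact hT x hx
    | algebraMap r =>
      intro m
      rw [AlgHom.commutes, Al.algebraMap_v, Pi.single_apply]
      split_ifs
      · rw [IsScalarTower.algebraMap_apply k P (UU k B D)]
        exact T.algebraMap_mem _
      · exact T.zero_mem
    | add x y _ _ hx hy =>
      intro m
      rw [map_add]
      exact T.add_mem (hx m) (hy m)
    | mul x y _ _ hx hy =>
      intro m
      rw [map_mul, Al.mul_v, Matrix.mulVec, dotProduct]
      refine T.sum_mem fun l _ => T.mul_mem ?_ (hy l)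
      rw [MulData.M, Matrix.sum_apply]
      refine T.sum_mem fun i _ => ?_
      rw [Matrix.smul_apply, smul_eq_mul]
      exact T.mul_mem (hx i) (T.algebraMap_mem _)
  rw [eq_top_iff]
  rintro x -
  obtain ⟨q, rfl⟩ := Ideal.Quotient.mk_surjective x
  induction q using MvPolynomial.induction_on with
  | C r => exact T.algebraMap_mem r
  | add p q hp hq =>
    rw [map_add]
    exact T.add_mem hp hq
  | mul_X p i hp =>
    rw [map_mul]
    exact T.mul_mem hp (hT' i.1 i.2)

theorem Uext {S : Type u} [CommRing S] [Algebra P S] (F G : UU k B D →ₐ[P] S)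
    (h : ∀ b m, F ((Uhom k B D b).v m) = G ((Uhom k B D b).v m)) : F = G := by
  have h2 : AlgHom.equalizer F G = ⊤ := by
    refine Ugen (k := k) (B := B) (D := D) Set.univ (Algebra.adjoin_univ k B) _ ?_
    intro b _ m
    exact h b m
  apply AlgHom.ext
  intro x
  have hx : x ∈ AlgHom.equalizer F G := by rw [h2]; trivial
  exact hx

/-- The homomorphism of based algebras induced by an algebra homomorphism. -/
noncomputable def Al.mapₐ {S S' : Type u} [CommRing S] [CommRing S'] [Algebra P S]
    [Algebra P S'] [Algebra k S] [Algebra k S'] [IsScalarTower k P S] [IsScalarTower k P S']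
    (f : S →ₐ[P] S') : Al (DU D S) →ₐ[k] Al (DU D S') :=
  { Al.map (D := DU D S) (D' := DU D S') f.toRingHom (fun i => by
      ext m l
      exact f.commutes _) with
    commutes' := by
      intro c
      apply Al.ext
      funext m
      change f ((Pi.single 0 (algebraMap k S c) : Fin (d + 1) → _) m) =
        (Pi.single 0 (algebraMap k S' c) : Fin (d + 1) → _) m
      rw [Pi.single_apply, Pi.single_apply]
      split_ifs
      · rw [IsScalarTower.algebraMap_apply k P S, f.commutes, ← IsScalarTower.algebraMap_apply]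
      · exact map_zero _ }

lemma Al.mapₐ_v {S S' : Type u} [CommRing S] [CommRing S'] [Algebra P S]
    [Algebra P S'] [Algebra k S] [Algebra k S'] [IsScalarTower k P S] [IsScalarTower k P S']
    (f : S →ₐ[P] S') (x : Al (DU D S)) (m : Fin (d + 1)) :
    (Al.mapₐ (k := k) f x).v m = f (x.v m) := rfl

theorem UU_formallySmooth [Algebra.FormallySmooth k B] :
    Algebra.FormallySmooth P (UU k B D) := by
  rw [Algebra.FormallySmooth.iff_comp_surjective]
  intro S _ _ I hI f
  letI : Algebra k S := ((algebraMap P S).comp (algebraMap k P)).toAlgebra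
  haveI : IsScalarTower k P S := IsScalarTower.of_algebraMap_eq' rfl
  haveI : IsScalarTower k P (S ⧸ I) := IsScalarTower.of_algebraMap_eq' rfl
  let g : Al (DU D S) →ₐ[k] Al (DU D (S ⧸ I)) := Al.mapₐ (Ideal.Quotient.mkₐ P I)
  have hg : Function.Surjective g := by
    intro x
    choose y hy using fun m => Ideal.Quotient.mk_surjective (x.v m)
    exact ⟨⟨y⟩, Al.ext (funext hy)⟩
  have hker : IsNilpotent (RingHom.ker (g : Al (DU D S) →+* Al (DU D (S ⧸ I)))) := by
    refine ⟨2, ?_⟩
    rw [pow_two, Ideal.zero_eq_bot, eq_bot_iff, Ideal.mul_le]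
    intro x hx y hy
    have hx0 : ∀ m, x.v m ∈ I := fun m =>
      Ideal.Quotient.eq_zero_iff_mem.1 (congrFun (congrArg Al.v hx) m)
    have hy0 : ∀ m, y.v m ∈ I := fun m =>
      Ideal.Quotient.eq_zero_iff_mem.1 (congrFun (congrArg Al.v hy) m)
    have hm : ∀ s ∈ I, ∀ t ∈ I, s * t = 0 := by
      intro s hs t ht
      have h : s * t ∈ I ^ 2 := by rw [pow_two]; exact Ideal.mul_mem_mul hs ht
      rw [hI] at h
      exact h
    rw [Ideal.mem_bot]
    apply Al.ext
    funext m
    rw [Al.mul_v, Matrix.mulVec, dotProduct]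
    change _ = (0 : S)
    refine Finset.sum_eq_zero fun l _ => ?_
    rw [MulData.M, Matrix.sum_apply, Finset.sum_mul]
    refine Finset.sum_eq_zero fun i _ => ?_
    rw [Matrix.smul_apply, smul_eq_mul, mul_right_comm, hm _ (hx0 i) _ (hy0 l), zero_mul]
  let fB : B →ₐ[k] Al (DU D (S ⧸ I)) := (Al.mapₐ f).comp (Uhom k B D)
  let L : B →ₐ[k] Al (DU D S) := Algebra.FormallySmooth.liftOfSurjective fB g hg hker
  have hL : ∀ b, g (L b) = fB b := fun b =>
    Algebra.FormallySmooth.liftOfSurjective_apply fB g hg hker b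
  obtain ⟨F, hF⟩ := Ulift L
  refine ⟨F, ?_⟩
  apply Uext
  intro b m
  have h0 := congrFun (congrArg Al.v (hL b)) m
  change Ideal.Quotient.mk I ((L b).v m) = f ((Uhom k B D b).v m) at h0
  rw [← hF b m] at h0
  exact h0

theorem UU_finiteType [hft : Algebra.FiniteType k B] : Algebra.FiniteType P (UU k B D) := by
  classical
  obtain ⟨s, hs⟩ := hft.out
  let s' : Finset (UU k B D) := (s ×ˢ (Finset.univ : Finset (Fin (d + 1)))).image
    fun p => (Uhom k B D p.1).v p.2
  refine ⟨⟨s', Ugen (k := k) (B := B) (D := D) (s : Set B) hs _ ?_⟩⟩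
  intro b hb m
  apply Algebra.subset_adjoin
  rw [Finset.mem_coe, Finset.mem_image]
  exact ⟨(b, m), Finset.mem_product.2 ⟨hb, Finset.mem_univ _⟩, rfl⟩

theorem UU_smooth [IsNoetherianRing P] [Algebra.Smooth k B] : Algebra.Smooth P (UU k B D) where
  formallySmooth := UU_formallySmooth
  finitePresentation := by
    have h : Algebra.FiniteType P (UU k B D) := UU_finiteType
    exact Algebra.FinitePresentation.of_finiteType.1 h

theorem UU_smooth_base [IsNoetherianRing P] [Algebra.Smooth k P] [Algebra.Smooth k B] :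
    Algebra.Smooth k (UU k B D) := by
  have h : Algebra.Smooth P (UU k B D) := UU_smooth
  exact Algebra.Smooth.comp k P (UU k B D)

end univ

end Pool.Agent.H937.QS
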