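import Pool.Agent.H937.QS.Adm
import Pool.Agent.H183.QS.COMM
import Pool.Agent.H183.QS.TRC
import Pool.Agent.H618.QS.STR
import Pool.Agent.H115.QS.IND
import Pool.Agent.H134.QS.P
import Pool.Agent.H788.QS.T
import Pool.Agent.H215.QS.POL
import Pool.Agent.H720.QS.VAL
import Pool.Agent.H686.QS.SYM
import Pool.Agent.H263.QS.Span
import Pool.Agent.H168.QS.NORM
import Pool.Agent.H894.QS.RET
import Pool.Agent.H277.QS.CORE
import Pool.Agent.H721.QS.D
import Pool.Agent.H17.QS.CH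
import Pool.Agent.H167.QS.ZIN
import Pool.Agent.H722.QS.LOCC
import Pool.Agent.H271.QS.COV
import Pool.Agent.H21.QS.FAM
import Pool.Agent.H350.QS.FG
import Pool.Agent.H348.QS.ELL
import Pool.Agent.H297.QS.LSM
import Pool.Agent.H828.QS.ESY
import Pool.Agent.H120.QS.COP
import Pool.Agent.H289.QS.FIX
import Pool.Agent.H980.QS.MOD
import Pool.Agent.H399.QS.DIST
import Pool.Agent.H30.QS.QQ4
import Pool.Agent.H784.QS.STR3
import Pool.Agent.H356.QS.QQ3
import Pool.Agent.H996.QS.GLUE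
import Pool.Agent.H401.QS.CH3
import Pool.Agent.H800.QS.FAMD

/-!
Assembly of the project QS.
-/

set_option autoImplicit false

open Pool.Agent.W559.Wr

universe u

namespace Pool.Agent.H937.QS

theorem comm' : S_COMM.{u} := Pool.Agent.H183.QS.COMM.t_COMM
theorem str' : S_STR.{u} := Pool.Agent.H618.QS.STR.t_STR
theorem ind' : S_IND.{u} := Pool.Agent.H115.QS.IND.t_IND str'
theorem p' : S_P.{u} := Pool.Agent.H134.QS.P.t_P
theorem t' : S_T.{u} := Pool.Agent.H788.QS.T.t_T p'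
theorem pol' : S_POL.{u} := Pool.Agent.H215.QS.POL.t_POL
theorem val' : S_VAL.{u} := Pool.Agent.H720.QS.VAL.t_VAL p' t' pol'
theorem sym' : S_SYM.{u} := Pool.Agent.H686.QS.SYM.t_SYM
theorem span' : S_SPAN.{u} := Pool.Agent.H263.QS.SPAN.t_SPAN
theorem norm' : S_NORM.{u} := Pool.Agent.H168.QS.NORM.t_NORM
theorem ret' : S_RET.{u} := Pool.Agent.H894.QS.RET.t_RET str' t'
theorem core' : S_CORE.{u} := Pool.Agent.H277.QS.CORE.t_CORE
theorem d' : S_D.{u} := Pool.Agent.H721.QS.D.t_D core' comm' str' ind'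
theorem ch' : S_CH.{u} := Pool.Agent.H17.QS.CH.t_CH d' ind' ret'
theorem trc' : S_TRC.{u} := Pool.Agent.H183.QS.TRC.t_TRC
theorem zin' : S_ZIN.{u} := Pool.Agent.H167.QS.ZIN.t_ZIN t'
theorem locc' : S_LOCC.{u} := Pool.Agent.H722.QS.LOCC.t_LOCC
theorem cov' : S_COV.{u} := Pool.Agent.H271.QS.COV.t_COV val'
theorem fam' : S_FAM.{u} := Pool.Agent.H21.QS.FAM.t_FAM ch' trc' zin' locc' cov' span' norm'
theorem fg' : S_FG.{u} := Pool.Agent.H350.QS.FG.t_FG
theorem ell' : S_ELL.{u} := Pool.Agent.H348.QS.ELL.t_ELL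
theorem lsm' : S_LSM.{u} := Pool.Agent.H297.QS.LSM.t_LSM
theorem esy' : S_ESY.{u} := Pool.Agent.H828.QS.ESY.t_ESY
theorem cop' : S_COP.{u} := Pool.Agent.H120.QS.COP.t_COP
theorem fix' : S_FIX.{u} := Pool.Agent.H289.QS.FIX.t_FIX cop' sym'
theorem mod' : S_MOD.{u} := Pool.Agent.H980.QS.MOD.t_MOD
theorem dist' : S_DIST.{u} := Pool.Agent.H399.QS.DIST.t_DIST
theorem str3' : S_STR3.{u} := Pool.Agent.H784.QS.STR3.t_STR3
theorem glue' : S_GLUE.{u} := Pool.Agent.H996.QS.GLUE.t_GLUE ell' lsm' esy' fg' fix' mod'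
theorem ch3' : S_CH3.{u} := Pool.Agent.H401.QS.CH3.t_CH3 core' str3'
theorem famd' : S_FAMD.{u} := Pool.Agent.H800.QS.FAMD.t_FAMD trc' locc' span' norm'
theorem qq4' : S_QQ4.{u} := Pool.Agent.H30.QS.QQ4.t_QQ4 fam' glue' cop' dist'
theorem qq3' : S_QQ3.{u} :=
  Pool.Agent.H356.QS.QQ3.t_QQ3 famd' ch3' glue' cop' dist'

end Pool.Agent.H937.QS
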