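import Mathlib

/-!
Project QS: resolution of the fourth symmetric power. Definitions: based algebras of rank four,
their structure constants, Plücker coordinates and parameters of a chart of the blowup of the
cone of decomposable bivectors.
-/

set_option autoImplicit false

open scoped Matrix

universe u v w

namespace Pool.Agent.H937.QS

section ring

variable {S : Type u} [CommRing S]

/-- The fifteen Plücker coordinates of a `2 × 6`-matrix, divided by the coordinate number two, in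
terms of eight parameters `a 1, ..., a 8`. -/
def qq (a : Fin 12 → S) : Fin 15 → S :=
  ![a 1, a 2, 1, a 3, a 4, a 2 * a 5 - a 1 * a 6, a 5, a 1 * a 7 + a 3 * a 5,
    a 1 * a 8 + a 4 * a 5, a 6, a 2 * a 7 + a 3 * a 6, a 2 * a 8 + a 4 * a 6, a 7, a 8,
    a 3 * a 8 - a 4 * a 7]

/-- The Plücker coordinates in terms of the parameters. -/
def pp (a : Fin 12 → S) : Fin 15 → S := fun X => a 0 * qq a X

/-- The translation parameters. -/
def tt (a : Fin 12 → S) : Fin 3 → S := ![a 9, a 10, a 11]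

/-- multiplication by the first basis element -/
def F1 (t : Fin 3 → S) (p : Fin 15 → S) : Matrix (Fin 4) (Fin 4) S :=
  !![0, p 0 * p 8 + p 0 * t 2 - p 1 * p 7 + p 1 * p 9 - p 1 * t 1 - p 2 * p 4 + p 3 * t 0 + p 5 * t 0 - t 0 * t 0, p 0 * p 13 - p 1 * p 12 + p 2 * t 2 - t 0 * t 1, p 0 * p 14 - p 1 * p 13 + p 3 * t 2 - p 4 * t 1 - t 0 * t 2;
    1, -p 3 - p 5 + 2 * t 0, t 1, t 2;
    0, p 1, t 0, p 4;
    0, -p 0, -p 2, -p 3 + t 0]

/-- multiplication by the second basis element -/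
def F2 (t : Fin 3 → S) (p : Fin 15 → S) : Matrix (Fin 4) (Fin 4) S :=
  !![0, p 0 * p 13 - p 1 * p 12 + p 2 * t 2 - t 0 * t 1, -p 12 * p 3 - p 12 * p 5 + p 12 * t 0 + p 13 * p 2 + p 6 * t 2 - p 7 * t 1 + p 9 * t 1 - t 1 * t 1, -p 12 * p 4 - p 13 * p 5 + p 13 * t 0 - p 8 * t 1 + p 9 * t 2 - t 1 * t 2;
    0, t 1, -p 12, -p 13;
    1, t 0, p 7 - p 9 + 2 * t 1, p 8 + t 2;
    0, -p 2, -p 6, -p 9 + t 1]

/-- multiplication by the third basis element -/
def F3 (t : Fin 3 → S) (p : Fin 15 → S) : Matrix (Fin 4) (Fin 4) S :=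
  !![0, p 0 * p 14 - p 1 * p 13 + p 3 * t 2 - p 4 * t 1 - t 0 * t 2, -p 12 * p 4 - p 13 * p 5 + p 13 * t 0 - p 8 * t 1 + p 9 * t 2 - t 1 * t 2, p 10 * t 2 - p 11 * t 1 - p 13 * p 4 - p 14 * p 5 + p 14 * t 0 - p 8 * t 2 - t 2 * t 2;
    0, t 2, -p 13, -p 14;
    0, p 4, p 8 + t 2, p 11;
    1, -p 3 + t 0, -p 9 + t 1, -p 10 + p 8 + 2 * t 2]

/-- The multiplication matrices of the basis elements `e 1, e 2, e 3` of the based algebra with
translation coordinates `t` and Plücker coordinates `p`. -/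
def FF (t : Fin 3 → S) (p : Fin 15 → S) : Fin 3 → Matrix (Fin 4) (Fin 4) S :=
  ![F1 t p, F2 t p, F3 t p]

/-- The multiplication matrices of the basis `e 0 = 1, e 1, e 2, e 3` in terms of the twelve
parameters. -/
def DF (a : Fin 12 → S) : Fin 4 → Matrix (Fin 4) (Fin 4) S :=
  ![1, F1 (tt a) (pp a), F2 (tt a) (pp a), F3 (tt a) (pp a)]

/-- Plücker coordinates of structure constants `s i j m`, the coefficient of `e m` in the product
of the basis elements number `i + 1` and `j + 1`. -/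
def pL (s : Fin 3 → Fin 3 → Fin 4 → S) : Fin 15 → S :=
  ![-s 0 0 3, s 0 0 2, -s 0 1 3, s 0 1 2 - s 0 2 3, s 0 2 2,
    2 * s 0 1 2 - s 0 0 1 - (s 0 1 2 - s 0 2 3), -s 1 1 3,
    s 1 1 2 - 2 * s 0 1 1 + (s 0 1 1 - s 1 2 3), s 1 2 2 - s 0 2 1,
    s 0 1 1 - s 1 2 3, s 1 2 2 - s 0 2 1 - s 2 2 3 + 2 * s 0 2 1,
    s 2 2 2, -s 1 1 1, -s 1 2 1, -s 2 2 1]

/-- Translation coordinates of structure constants. -/
def tL (s : Fin 3 → Fin 3 → Fin 4 → S) : Fin 3 → S := ![s 0 1 2, s 0 1 1, s 0 2 1]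

/-- The determinants which are the numerators of the structure constants in Cramer's rule. -/
def dsc (N : Matrix (Fin 4) (Fin 4) S) (i j : Fin 3) (m : Fin 4) : S :=
  (N.updateCol m fun q => N q i.succ * N q j.succ).det

/-- The alternants: the Plücker coordinates times the determinant. -/
def Lam (N : Matrix (Fin 4) (Fin 4) S) (X : Fin 15) : S := pL (dsc N) X

/-- The matrix with the columns `1, x, y, z`; the rows belong to the four points. -/
def cols (x y z : Fin 4 → S) : Matrix (Fin 4) (Fin 4) S := Matrix.of fun q i => ![1, x q, y q, z q] i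

/-- The alternant `det (1, x, y, x y)`. -/
def fd (x y : Fin 4 → S) : S := (cols x y fun q => x q * y q).det

end ring

section field

variable {L : Type u} [Field L]

/-- The coordinates of a function on four points in the basis given by the columns of `N`. -/
noncomputable def co (N : Matrix (Fin 4) (Fin 4) L) (f : Fin 4 → L) : Fin 4 → L := N⁻¹ *ᵥ f

/-- The structure constants of the algebra of functions on four points in the basis given by the
columns of `N`. -/
noncomputable def sc (N : Matrix (Fin 4) (Fin 4) L) (i j : Fin 3) : Fin 4 → L :=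
  co N fun q => N q i.succ * N q j.succ

/-- The twelve parameters. -/
noncomputable def par (N : Matrix (Fin 4) (Fin 4) L) : Fin 12 → L :=
  ![pL (sc N) 2, pL (sc N) 0 / pL (sc N) 2, pL (sc N) 1 / pL (sc N) 2, pL (sc N) 3 / pL (sc N) 2,
    pL (sc N) 4 / pL (sc N) 2, pL (sc N) 6 / pL (sc N) 2, pL (sc N) 9 / pL (sc N) 2,
    pL (sc N) 12 / pL (sc N) 2, pL (sc N) 13 / pL (sc N) 2, tL (sc N) 0, tL (sc N) 1, tL (sc N) 2]

end field

end Pool.Agent.H937.QS
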