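import Pool.Agent.H937.QS.Def

/-!
Project QS: statements with complete paper proofs.

Conventions.  `N : Matrix (Fin 4) (Fin 4) L` is a basis of the algebra `L ^ 4` of functions on four
points `q = 0, 1, 2, 3`: the entry `N q i` is the value of the `i`-th basis function `e i` at the
point `q`; the first basis function is `e 0 = 1`.  `co N f` are the coordinates of `f` (Cramer:
`co N f m * N.det = (N.updateCol m f).det`), `sc N i j m` the coefficient of `e m` in
`e (i+1) * e (j+1)`, `Lam N X = N.det * pL (sc N) X`.
-/

set_option autoImplicit false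

open scoped Matrix TensorProduct

universe u v w

namespace Pool.Agent.H937.QS

/-- TASK COMM.  The multiplication matrices commute, and the first column of the `i`-th one is the
`i`-th standard basis vector.
Proof.  `DF a 0 = 1`.  For the others write out the entries (`Matrix.mul_apply`,
`Fin.sum_univ_four`, `fin_cases`, `simp only [F1, F2, F3, tt, pp, qq, Matrix.cons_val,
Matrix.of_apply]`) and use `ring`: all identities are polynomial identities in the twelve
parameters.  (The file Pool/Agent/H869/Quart.lean has the same computation for arbitrary Plücker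
coordinates, with the explicit linear combinations of the Plücker relations if `ring` is too
slow: `pp a` satisfies the fifteen Plücker relations by `ring`, then use `linear_combination`.) -/
def S_COMM : Prop := ∀ (S : Type u) [CommRing S] (a : Fin 12 → S),
  (∀ i j, DF a i * DF a j = DF a j * DF a i) ∧ ∀ i m, DF a i m 0 = if m = i then 1 else 0

/-- TASK STR.  The structure constants of the algebra of functions on four points in terms of the
parameters.
Proof.  Let `s = sc N`.  Then `s i j = s j i`, and from `(e i e j) e l = (e i e l) e j` and the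
uniqueness of coordinates one gets the associativity equations
`E i j l m : s i j 0 * (if m = l.succ then 1 else 0) + s i j 1 * s 0 l m + s i j 2 * s 1 l m +
s i j 3 * s 2 l m = (the same with j and l exchanged)`.  From these equations alone the file
Pool/Agent/H869/QChart.lean (lemmas `isPl_pOf` and `sc_eq`) derives, with explicit
`linear_combination`s, the fifteen Plücker relations (`Pool/Agent/H869/GrNorm.lean`, `isPl_iff`)
for `p = pL s` and `s i j m = FF (tL s) (pL s) i m j.succ`: copy these proofs with `sc c` replaced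
by `s`.  If `p 2 ≠ 0` then the relations containing `p 2`, for example
`p 0 * p 9 - p 1 * p 6 + p 2 * p 5 = 0`, give `pp (par N) = pL (sc N)` (`field_simp`), and
`tt (par N) = tL (sc N)` by definition.  Hence `DF (par N) i m l` is the coefficient of `e m` in
`e i * e l` for all `i l : Fin 4` (for `i = 0` it is `(1 : Matrix) m l`, for `l = 0` use the first
columns of `F1, F2, F3`), which is the first claim. -/
def S_STR : Prop := ∀ (L : Type u) [Field L] (N : Matrix (Fin 4) (Fin 4) L),
  (∀ q, N q 0 = 1) → N.det ≠ 0 → pL (sc N) 2 ≠ 0 →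
  (∀ q i l, N q i * N q l = ∑ m, N q m * DF (par N) i m l) ∧
  pp (par N) = pL (sc N) ∧ tt (par N) = tL (sc N)

/-- The matrix of four generic points of the three-dimensional space. -/
noncomputable def Tg (k : Type u) [Field k] :
    Matrix (Fin 4) (Fin 4) (FractionRing (MvPolynomial (Fin 4 × Fin 3) k)) :=
  Matrix.of fun q => Fin.cons 1 fun l =>
    algebraMap (MvPolynomial (Fin 4 × Fin 3) k) _ (MvPolynomial.X (q, l))

/-- TASK IND.  The parameters of four generic points are algebraically independent.
Proof.  `det ≠ 0`: the determinant is the image of a polynomial with integral coefficients whose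
value at the points `(0,0,0), (1,0,0), (0,1,0), (0,0,1)` is `1`.  `pL (sc T) 2 = - sc T 0 1 3`, and
`sc T 0 1 3 * det T = det (1, x, y, x y)` (Cramer), a polynomial which has the value `±1` at points
with `(x, y) = (0,0), (1,0), (0,1), (1,1)`; so it is not zero.  Independence: by
`Pool.Agent.H413.RS.indep_of_algebraic` (file Pool/Agent/H413/RS/Indep.lean: a family of as many
elements as variables, over which the variables are algebraic, is algebraically independent)
applied to `par T ∘ e` with a bijection `e : Fin 4 × Fin 3 ≃ Fin 12`, it suffices that every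
variable `T q (l + 1)` is algebraic over `A = adjoin k (range (par T))`.  By `hSTR`, `T q i * T q l
= ∑ m, T q m * DF (par T) i m l`, that is, the row `T q` is a left eigenvector of the matrix
`DF (par T) i`, with eigenvalue `T q i`, and it is not zero as `T q 0 = 1`.  The entries of
`DF (par T) i` lie in `A` (they are polynomials in `par T`), so `T q i` is a root of the
characteristic polynomial, which is monic with coefficients in `A`, hence integral and algebraic
over `A` (`IsIntegral.isAlgebraic`; one can use `DF` of the family `par T` considered in the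
subalgebra `A`, and `Matrix.exists_vecMul_eq_zero_iff`, `Matrix.eval_charpoly` or
`Matrix.charpoly`, `Matrix.charpoly_monic`, `Matrix.charpoly_map`). -/
def S_IND : Prop := ∀ (k : Type u) [Field k], (Tg k).det ≠ 0 ∧ pL (sc (Tg k)) 2 ≠ 0 ∧
  AlgebraicIndependent k (par (Tg k))

/-- The translation part. -/
def nn {S : Type u} [CommRing S] (t : Fin 3 → S) (g : Fin 4 → S) : S :=
  g 0 + ∑ r : Fin 3, g r.succ * t r

/-- TASK P.  Products of elements with coordinates in a subring over which the Plücker coordinates
are divisible by `τ`.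
Proof.  From the definition of `pL` and `tL` (linear algebra, `s = sc N` is symmetric) one gets for
all `i j : Fin 3` and `m : Fin 3` that `s i j m.succ = tL s i * [m = j] + tL s j * [m = i] + τ *
q i j m` with `q i j m ∈ C`: explicitly, with `p = pL s`, `t = tL s`,
`s 0 0 = (*, -p3-p5+2t0, p1, -p0)`, `s 0 1 = (*, t1, t0, -p2)`, `s 0 2 = (*, t2, p4, -p3+t0)`,
`s 1 1 = (*, -p12, p7-p9+2t1, -p6)`, `s 1 2 = (*, -p13, p8+t2, -p9+t1)`,
`s 2 2 = (*, -p14, p11, -p10+p8+2t2)`.  Let `x = N *ᵥ g = ∑ g_i e_i`, `y = N *ᵥ h`.  Then
`x y = g_0 y + h_0 x - g_0 h_0 + ∑_{r,s ≥ 1} g_r h_s e_r e_s`, and `e_r e_s = (scalar) + t_r e_s +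
t_s e_r + τ ∑_m q_rs^m e_m`, so `∑_{r,s} g_r h_s e_r e_s = scalar + (∑ g_r t_r) (y - h_0) +
(∑ h_s t_s) (x - g_0) + τ ∑_m (∑_{r,s} g_r h_s q_rs^m) e_m`.  Put `w m = ∑_{r,s} g_r h_s q_rs^m`.
(`e_r e_s = ∑_m s r s m e_m` at each point because `N *ᵥ co N f = f`.) -/
def S_P : Prop := ∀ (L : Type u) [Field L] (C : Subring L) (N : Matrix (Fin 4) (Fin 4) L),
  (∀ q, N q 0 = 1) → N.det ≠ 0 → ∀ τ : L, (∀ X, ∃ c ∈ C, pL (sc N) X = τ * c) →
  ∀ g h : Fin 4 → L, (∀ i, g i ∈ C) → (∀ i, h i ∈ C) →
  ∃ (α : L) (w : Fin 3 → L), (∀ r, w r ∈ C) ∧ ∀ q, (N *ᵥ g) q * (N *ᵥ h) q =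
    α + nn (tL (sc N)) h * (N *ᵥ g) q + nn (tL (sc N)) g * (N *ᵥ h) q +
      τ * ∑ r : Fin 3, w r * N q r.succ

/-- TASK T.  The alternants of a tuple of elements with coordinates in `C` are divisible by
`det N * τ`.
Proof.  Let `x i = N *ᵥ (column i.succ of G)`, `n i = nn (tL (sc N)) (column i.succ of G)`,
`i : Fin 3`.  By `hP`, `x i * x j = α + n j x i + n i x j + τ y` with `y = N *ᵥ (0, w)`,
`w ∈ C ^ 3` depending on `i, j`.  For `m ≠ 0`, by multilinearity in the column `m` (the column `0`
of `N * G` is `1`), `dsc (N * G) i j m = (N G).updateCol m (x i * x j)` has determinant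
`n j [m = i+1] det (N G) + n i [m = j+1] det (N G) + τ det N * det (G.updateCol m (0, w))`, as a
determinant with two equal columns vanishes.  `pL s X` is linear in `s`, uses only the entries
`s i j m` with `m ≠ 0`, and vanishes for `s i j m = n j [m = i+1] + n i [m = j+1]` (`fin_cases X`,
`ring`).  So `Lam (N * G) X = det N * τ * pL (fun i j m => det (G.updateCol m (0, w i j))) X`,
and the last factor is in `C`. -/
def S_T : Prop := ∀ (L : Type u) [Field L] (C : Subring L) (N : Matrix (Fin 4) (Fin 4) L),
  (∀ q, N q 0 = 1) → N.det ≠ 0 → ∀ τ : L, (∀ X, ∃ c ∈ C, pL (sc N) X = τ * c) →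
  ∀ G : Matrix (Fin 4) (Fin 4) L, (∀ i l, G i l ∈ C) → (∀ i, G i 0 = if i = 0 then 1 else 0) →
  ∀ X, ∃ c ∈ C, Lam (N * G) X = N.det * (τ * c)

/-- TASK POL.  The alternants are linear combinations of the alternants `fd`.
Proof.  Write `f (u, v) = fd u v = det (1, u, v, u v)` and `h (u, v) = det (1, u, v, u ^ 2)`,
`P (x; y, z) = det (1, x, y, x z) + det (1, x, z, x y)`,
`D (x, y; z) = det (1, y, z, x ^ 2) + 2 det (1, x, z, x y)`.  Then
`h (u, v) = f (u, u + v) - f (u, v)`, `P (x; y, z) = f (x, y + z) - f (x, y) - f (x, z)`, and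
`h (x + c y, z) = h (x, z) + c D (x, y; z) + c ^ 2 D (y, x; z) + c ^ 3 h (y, z)`, hence
`(a - a ^ 2) D (x, y; z) = (h (x + a y, z) - h (x, z) - a ^ 3 h (y, z)) -
a ^ 2 (h (x + y, z) - h (x, z) - h (y, z))`.  So `h`, `P`, `D` of `x, y, z` (in any order) are in
`Q`.  The fifteen alternants `Lam (cols x y z) X`, `X = 0, ..., 14`, are
`-h(x,y), -h(x,z), -f(x,y), -P(x;y,z), -f(x,z), P(x;y,z)-D(x,y;z), h(y,x), P(y;x,z)-D(y,x;z),
P(z;x,y), P(y;x,z), P(z;x,y)-D(z,x;y), h(z,x), -h(y,z), -f(y,z), h(z,y)`.
All identities are identities between `4 × 4` determinants of functions at four points: expand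
(`Matrix.det_succ_row_zero` or a lemma for `Fin 4`) and use `ring`, or use multilinearity. -/
def S_POL : Prop := ∀ (k L : Type u) [Field k] [Field L] [Algebra k L] (a : k), a ^ 2 ≠ a →
  ∀ (x y z : Fin 4 → L) (Q : Submodule k L),
  (∀ c c' : Fin 3 → k, (∀ i, c i = 0 ∨ c i = 1 ∨ c i = a) → (∀ i, c' i = 0 ∨ c' i = 1 ∨ c' i = a) →
    fd (c 0 • x + c 1 • y + c 2 • z) (c' 0 • x + c' 1 • y + c' 2 • z) ∈ Q) →
  ∀ X, Lam (cols x y z) X ∈ Q

/-- linear combinations with coefficients in the valuation ring -/
def InSpan {L : Type u} [Field L] (V : ValuationSubring L) {n : ℕ} (w : Fin (n + 1) → Fin 4 → L)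
    (x : Fin 4 → L) : Prop :=
  ∃ c : Fin (n + 1) → L, (∀ l, c l ∈ V) ∧ x = ∑ l, c l • w l

/-- TASK VAL.  The charts cover.
Proof.  (1) Among the `4`-tuples `i : Fin 4 → Fin (n + 1)` choose one, `i*`, for which the
determinant `δ i = det (w (i 0), ..., w (i 3))` has maximal valuation (`V.valuation`, finitely
many tuples; total order).  `δ i* ≠ 0`: otherwise all determinants of four elements of the span
vanish, but `fd` of the two given elements is the determinant of `1`, two elements of the span and
their product, which is in the span by the hypothesis on products.  By Cramer's rule the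
coordinates of all `w l` in the basis `w ∘ i*` are in `V`, hence those of all elements of the span.
As `w 0 = 1 = ∑ c_r w (i* r)` with `c_r ∈ V` and `w (i* r) q ∈ V`, some `c_r` is a unit of `V`
(else `1` would be in the maximal ideal).  Replace `w (i* r)` by `1` and move it to the first
place: `N1 = cols (w i1) (w i2) (w i3)` has the determinant `± c_r δ i*`, and still every element
of the span has coordinates in `V` in the basis `N1`.  (2) `p = pL (sc N1)` has entries in `V` (the
products of the `w` are in the span).  Let `τ = p X0` have maximal valuation.  `hT` for `C = V`: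
for `x, y, z` in the span, `Lam (cols x y z) X = det N1 * (τ * c)`, `c ∈ V` (`cols x y z = N1 * G`
with `G = (e 0, co N1 x, co N1 y, co N1 z)`).  `τ ≠ 0`, since `Lam (cols x y z) 2 = - fd x y` for
any `z` and `fd` of the given elements is not zero.  (3) By `hPOL` applied to the three columns
`w i1, w i2, w i3` of `N1` and `Q = {x | x / (det N1 * τ) ∈ maximal ideal of V}` (a `k`-submodule as
`k ⊆ V`), there are `u, v`, combinations of them with coefficients in `{0, 1, a}`, such that
`fd u v / (det N1 * τ) ∉ 𝔪`: otherwise `Lam N1 X0 = det N1 * τ` would be in `Q`.  By (2) it is in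
`V`, so it is a unit of `V`.  (4) By `hP` for `N1`, `C = V` and the coordinates of `u, v`,
`u v = α + β u + γ v + τ ∑ r, w' r * e (r+1)`, `w' r ∈ V`, so `fd u v = det (1, u, v, u v) =
τ ∑ r, w' r * det (1, u, v, e (r+1))`.  The quotients `det (1, u, v, e (r+1)) / det N1` are in `V`
(coordinates), and one of them is a unit of `V`, by (3).  Let `w (i 3)` be this `e (r+1)`, and
`N = cols u v (w (i 3))`.  Then `det N / det N1` is a unit, and `Lam N 2 = - fd u v` is a unit
times `det N1 * τ`.  The determinants of four elements of the span are `det N1` times the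
determinant of their coordinates, and (2) gives the last claim. -/
def S_VAL : Prop := ∀ (k L : Type u) [Field k] [Field L] [Algebra k L] (V : ValuationSubring L),
  (∀ c : k, algebraMap k L c ∈ V) → ∀ a : k, a ^ 2 ≠ a →
  ∀ (n : ℕ) (w : Fin (n + 1) → Fin 4 → L), (∀ i q, w i q ∈ V) → w 0 = 1 →
  (∀ i j, InSpan V w (w i * w j)) → (∃ x y, InSpan V w x ∧ InSpan V w y ∧ fd x y ≠ 0) →
  ∃ (c c' : Fin 3 → k) (i : Fin 4 → Fin (n + 1)), (∀ l, c l = 0 ∨ c l = 1 ∨ c l = a) ∧
    (∀ l, c' l = 0 ∨ c' l = 1 ∨ c' l = a) ∧
    ∀ u v : Fin 4 → L, u = c 0 • w (i 0) + c 1 • w (i 1) + c 2 • w (i 2) →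
    v = c' 0 • w (i 0) + c' 1 • w (i 1) + c' 2 • w (i 2) →
    ∀ N : Matrix (Fin 4) (Fin 4) L, N = cols u v (w (i 3)) →
    N.det ≠ 0 ∧ Lam N 2 ≠ 0 ∧
    (∀ h : Fin 4 → Fin 4 → L, (∀ i, InSpan V w (h i)) →
      (Matrix.of fun q i => h i q).det / N.det ∈ V) ∧
    ∀ x y z : Fin 4 → L, InSpan V w x → InSpan V w y → InSpan V w z →
      ∀ X, Lam (cols x y z) X / Lam N 2 ∈ V

/-- TASK SYM.  Symmetric tensors over an infinite field are spanned by the powers.
Proof.  Let `U` be the span of the `b ⊗ ... ⊗ b`.  (A) Let `b : Fin r → B` and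
`O_α = ∑ ⨂ b (g i)`, the sum over all `g : Fin n → Fin r` of type `α` (that is, with `α l`
elements in the fibre over `l`).  Then `O_α ∈ U`: let `λ` be a linear form on the tensor power
which vanishes on `U`; for `c : Fin r → k`, `0 = λ ((∑ c l b l) ⊗ ... ⊗ (∑ c l b l)) =
∑_α c ^ α λ (O_α)` (`MultilinearMap.map_sum`, `map_smul_univ`), so the polynomial
`∑_α λ (O_α) X ^ α` vanishes on `k ^ r` and hence is zero (`MvPolynomial.funext`, `k` infinite), and
`λ (O_α) = 0`; as this holds for all `λ`, `O_α ∈ U` (`Submodule.exists_le_ker_of_notMem` or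
`Submodule.exists_dual_map_eq_bot...`).  (B) Let `β` be a basis of `B`, indexed by `ι`; the
`⨂ β (f i)`, `f : Fin n → ι`, are a basis of the tensor power (`Basis.piTensorProduct`).  The
coordinates `c f` of a symmetric `x` satisfy `c (f ∘ σ) = c f`, so `c f` depends only on the type
of `f`, and the (finite) support of `c` is a union of classes of `f` of the same type.  So `x` is a
linear combination of the sums over these classes, which are of the form `O_α` for a finite
family of elements of the basis.  (Any other proof is fine; only `n = 3` and `n = 4` are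
needed.) -/
def S_SYM : Prop := ∀ (k B : Type u) [Field k] [Infinite k] [CommRing B] [Algebra k B] (n : ℕ)
  (x : ⨂[k] _ : Fin n, B),
  (∀ σ : Equiv.Perm (Fin n), PiTensorProduct.reindex k (fun _ => B) σ x = x) →
  x ∈ Submodule.span k (Set.range fun b : B => PiTensorProduct.tprod k fun _ : Fin n => b)

/-- The algebra generated by the elementary symmetric functions of the values. -/
noncomputable def Esym (k : Type u) {B M : Type u} [Field k] [CommRing B] [Algebra k B] [Field M]
    [Algebra k M] {n : ℕ} (ev : B →ₐ[k] (Fin n → M)) : Subalgebra k M :=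
  Algebra.adjoin k {x | ∃ b m, x = (∏ q, (Polynomial.X - Polynomial.C (ev b q))).coeff m}

/-- TASK SPAN.  Finitely many functions span all functions over the symmetric functions.
Proof.  Let `t 1, ..., t r` generate the algebra `B`, and let `w` be the family of the monomials
`∏ t j ^ e j` with `0 ≤ e j ≤ n` (a finite family containing `1`; put `1` first).  Let `S` be the
set of the `b` with the claimed property (a linear combination of the `ev (w l)` with coefficients
in `Esym`).  `S` contains `1` and is closed under sums and under multiplication by constants.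
It is closed under multiplication by `t j`: it suffices that `t j * w l ∈ S`, and this is clear
unless `e j = n`, when one uses that `t = ev (t j) q` is for all `q` a root of the monic polynomial
`∏ q, (X - ev (t j) q)` of degree `n` with coefficients in `Esym`, so that `t ^ n` is a linear
combination of `1, t, ..., t ^ (n-1)` with coefficients in `Esym` not depending on `q` (so exponents
`< n` would suffice for `n > 0`).  Hence `S` contains everything (induction as in
`Algebra.adjoin_induction` or via a surjection from `MvPolynomial (Fin r) k`). -/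
def S_SPAN : Prop := ∀ (k B M : Type u) [Field k] [CommRing B] [Algebra k B]
  [Algebra.FiniteType k B] [Field M] [Algebra k M] (n : ℕ) (ev : B →ₐ[k] (Fin n → M)),
  ∃ (N : ℕ) (w : Fin (N + 1) → B), w 0 = 1 ∧ ∀ b : B, ∃ c : Fin (N + 1) → M,
    (∀ l, c l ∈ Esym k ev) ∧ ∀ q, ev b q = ∑ l, c l * ev (w l) q

/-- TASK NORM.  The symmetric functions of the values of `b` are polynomials in coordinates.
Proof.  Let `N = (ev (m i) q)_{q, i}` and `Mb = N⁻¹ * diagonal (ev b) * N`.  The polynomial
`∏ q, (X - ev b q)` is the characteristic polynomial of `diagonal (ev b)`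
(`Matrix.charpoly_diagonal` or of a triangular matrix), hence of the conjugate matrix `Mb`
(`Matrix.charpoly_units_conj`...).  The entry `Mb i l` is `(N⁻¹ *ᵥ ev (b * m l)) i`, an element of
the adjoined set, so the coefficients of the characteristic polynomial of `Mb` are in the algebra
(consider `Mb` as a matrix over the subalgebra and use `Matrix.charpoly_map`). -/
def S_NORM : Prop := ∀ (k B M : Type u) [Field k] [CommRing B] [Algebra k B] [Field M]
  [Algebra k M] (n : ℕ) (ev : B →ₐ[k] (Fin n → M)) (m : Fin n → B),
  (Matrix.of fun q i => ev (m i) q).det ≠ 0 →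
  Esym k ev ≤ Algebra.adjoin k
    {z | ∃ b i, z = ((Matrix.of fun q i => ev (m i) q)⁻¹ *ᵥ ev b) i}

/-- The coordinate algebra of a chart. -/
noncomputable def CC (k : Type u) {B M : Type u} [Field k] [CommRing B] [Algebra k B] [Field M]
    [Algebra k M] (ev : B →ₐ[k] (Fin 4 → M)) (N : Matrix (Fin 4) (Fin 4) M) : Subalgebra k M :=
  Algebra.adjoin k ({z | ∃ b i, z = co N (ev b) i} ∪
    Set.range fun X => pL (sc N) X / pL (sc N) 2)

/-- A homomorphism `f` from `B` to the free module `C ^ 4` with the algebra structure given by the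
parameters `a`. -/
def IsHomF (k : Type u) {B C : Type u} [Field k] [CommRing B] [Algebra k B] [CommRing C]
    [Algebra k C] (a : Fin 12 → C) (f : B → Fin 4 → C) : Prop :=
  (∀ b b', f (b + b') = f b + f b') ∧ (∀ b b', f (b * b') = (∑ i, f b i • DF a i) *ᵥ f b') ∧
    ∀ c : k, f (algebraMap k B c) = Pi.single 0 (algebraMap k C c)

/-- The universal algebra of the chart of a basis `T` which is generic: it is smooth, embedded in
`L` by `G`, contains the coordinates `yU b` of the elements of `B` and the parameters `aU` of the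
basis, and is universal for homomorphisms to based algebras with parameters. -/
def IsUniv (k : Type u) {B L : Type u} [Field k] [CommRing B] [Algebra k B] [Field L] [Algebra k L]
    (ev : B →ₐ[k] (Fin 4 → L)) (T : Matrix (Fin 4) (Fin 4) L) {U : Type u} [CommRing U]
    [Algebra k U] (G : U →ₐ[k] L) (yU : B → Fin 4 → U) (aU : Fin 12 → U) : Prop :=
  Algebra.Smooth k U ∧ Function.Injective G ∧ (∀ b m, G (yU b m) = co T (ev b) m) ∧
  (∀ s, G (aU s) = par T s) ∧
  ∀ (C : Type u) [CommRing C] [Algebra k C] (a : Fin 12 → C) (f : B → Fin 4 → C), IsHomF k a f →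
    ∃ π : U →ₐ[k] C, (∀ b m, π (yU b m) = f b m) ∧ ∀ s, π (aU s) = a s

/-- TASK RET.  The chart algebra of a fixed basis is smooth.
Proof.  Identify `M` with a subfield of `L` by `ι`; `ev' b q = ι (ev b q)`.
Let `C = CC k ev N ⊆ M`, a domain.  (1) Point.  By `hSTR` for `N` the functions
`b ↦ co N (ev b) ∈ C ^ 4` and the parameters `par N` (in `C`: `par N 0 = pL (sc N) 2` and `tL (sc N)`
are combinations of coordinates of `ev (m i * m j)`, as `sc N i j = co N (ev (m i.succ *
m j.succ))`) satisfy `IsHomF`: it suffices to compare the values at the four points, i.e. to apply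
`N *ᵥ` (over `M`; `C → M` is injective), where both sides become `ev b q * ev b' q`, using
`N q i * N q l = ∑ m, N q m * DF (par N) i m l`.  So there is `π : U →ₐ[k] C` with
`π (yU b m) = co N (ev b) m`, `π (aU s) = par N s`.  (2) Let `γ = (yU (m l) i)_{i l}`, a matrix over
`U`; `π γ = 1` (as `co N` of the `l`-th column of `N` is the `l`-th standard vector) and over `L`:
`ι N = T * G γ`, so `G (det γ) ≠ 0` and `G γ *ᵥ co N (ev b) = G (yU b)`.  Let
`ξ X = pL (fun i j r => det (γ.updateCol r (yU (m i.succ * m j.succ)))) X ∈ U`.  Then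
`G (ξ X) = det (G γ) * pL (sc N) X` (Cramer: `N.det * sc N i j r = det (N.updateCol r (e e'))` and
multiply by `T`), i.e. `det T * G (ξ X) = Lam N X`, and `π (ξ X) = pL (sc N) X`.
(3) `hT` for the subring `G (U)` of `L`, the basis `T`, `τ = par T 0 = pL (sc T) 2 = G (aU 0)`
(the hypothesis holds by `hSTR` for `T`: `pL (sc T) X = pp (par T) X = par T 0 * qq (par T) X`) and
the matrix `G γ` gives `λ X ∈ U` with `Lam (ι N) X = det T * (τ * G (λ X))`, so
`ξ X = aU 0 * λ X` in `U` (G injective).  Apply `π`: `pL (sc N) X = pL (sc N) 2 * π (λ X)`, so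
`π (λ X) = pL (sc N) X / pL (sc N) 2`, in particular `π (λ 2) = 1`; and `G (λ 2) ≠ 0` as
`Lam N 2 ≠ 0`, and `G (λ X) / G (λ 2) = ι (pL (sc N) X / pL (sc N) 2)`.
(4) Let `h = det γ * λ 2 ∈ U`, `π h = 1`, `G h ≠ 0`, and let `U' = Localization.Away h`: it is
formally smooth over `k` (composition of `U` smooth and a localization), `G` extends to an
injective `G' : U' → L`, `π` to `π' : U' → C`.  The set `S` of the `x ∈ U'` such that
`G' x = ι (π' x)` is a subalgebra, and it contains elements which `π'` maps to the generators of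
`C`: for `co N (ev b) i` take `(det γ)⁻¹ (adjugate γ *ᵥ yU b) i` and for
`pL (sc N) X / pL (sc N) 2` take `λ X / λ 2`.  So for every `c ∈ C` there is an `x` with
`π' x = c`, `G' x = ι c`, unique as `G'` is injective; this defines a homomorphism
`j : C → U'` with `π' ∘ j = id`.  (5) `C` is formally smooth as a retract of a formally smooth
algebra: to lift `C → E / J` (square-zero `J`) along `E → E / J`, lift the composition with `π'`
to `U' → E` and compose with `j`.  It is of finite type as a quotient of `U'` by `π'`, hence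
finitely presented as `k` is a field (`Algebra.FinitePresentation.of_finiteType`). -/
def S_RET : Prop := ∀ (k B M L : Type u) [Field k] [CommRing B] [Algebra k B] [Field M]
  [Algebra k M] [Field L] [Algebra k L] (ι : M →ₐ[k] L) (ev : B →ₐ[k] (Fin 4 → M))
  (ev' : B →ₐ[k] (Fin 4 → L)), (∀ b q, ev' b q = ι (ev b q)) →
  ∀ (T : Matrix (Fin 4) (Fin 4) L), (∀ q, T q 0 = 1) → T.det ≠ 0 → pL (sc T) 2 ≠ 0 →
  ∀ (U : Type u) [CommRing U] [Algebra k U] (G : U →ₐ[k] L) (yU : B → Fin 4 → U)
  (aU : Fin 12 → U), IsUniv k ev' T G yU aU →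
  ∀ (m : Fin 4 → B), m 0 = 1 → ∀ N : Matrix (Fin 4) (Fin 4) M, (∀ q i, N q i = ev (m i) q) →
  N.det ≠ 0 → pL (sc N) 2 ≠ 0 → Algebra.Smooth k (CC k ev N)

end Pool.Agent.H937.QS
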