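import Pool.Agent.H937.QS.Alg
import Pool.Agent.H937.QS.Stm

/-!
Project QS, second part: statements with complete paper proofs: the universal algebra, smoothness
of the charts, and the family of symmetric functions defining the blowup.
-/

set_option autoImplicit false

open scoped Matrix TensorProduct

universe u v w

namespace Pool.Agent.H937.QS

/-- `j` makes `R` a coproduct of `n` copies of the algebra `B` (a tensor power). -/
structure IsCop (k : Type u) [Field k] {n : ℕ} {B R : Type u} [CommRing B] [Algebra k B]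
    [CommRing R] [Algebra k R] (j : Fin n → (B →ₐ[k] R)) : Prop where
  lift : ∀ (S : Type u) [CommRing S] [Algebra k S] (f : Fin n → (B →ₐ[k] S)),
    ∃ g : R →ₐ[k] S, ∀ i a, g (j i a) = f i a
  ext : ∀ (S : Type u) [CommRing S] [Algebra k S] (g g' : R →ₐ[k] S),
    (∀ i a, g (j i a) = g' (j i a)) → g = g'

/-- TASK CORE.  The universal algebra `UU k B D` (file Pool/Agent/H937/QS/Alg.lean: the universal
algebra over the polynomial ring `P` for homomorphisms from `B` to the based algebra with the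
multiplication matrices `D.F i`) embeds into `L`.
Proof.  This is the generalisation of `core_inj` and `core_struct` of the file
Pool/Agent/H413/RS/Core.lean (cubic algebras, there `Cub`, `UU`, `Uhom`, `Ulift`, `Ugen`) from
`d = 2` to arbitrary `d`; the proof can be copied, with vectors `Fin (d + 1) → S` instead of three
components.  Let `P = MvPolynomial σ k`, an algebra over which `F` becomes an algebra by `aeval a`
(injective), and `L` by `φ`.  Let `y b = (T.map φ)⁻¹ *ᵥ fun q => γ (j q b)`, so that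
`γ (j q b) = ∑ m, y b m * φ (T q m)`.  For a `P`-algebra `S` and a `P`-homomorphism `f : F → S` the
evaluation `ev q : Al (DU D S) →+* S`, `x ↦ ∑ m, x.v m * f (T q m)` is a ring homomorphism by the
hypothesis on `T` and `D`, and the `ev q` together are injective (`T` is invertible).  Hence
`b ↦ ⟨y b⟩` is a homomorphism `B → Al (DU D L)` and `Ulift` gives `G : UU → L`.  Injectivity:
`UU` is smooth over `P` (`UU_smooth`), hence flat, so `UU → Ut := UU ⊗[P] F` is injective
(`Algebra.TensorProduct.includeLeft_injective` as used there).  The homomorphisms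
`b ↦ ev q (Uhom b)` from `B` to `Ut` give, by `IsCop`, `Ψ : R ⊗[k] F → Ut`, which is surjective
because `T` is invertible, and the composition of `Ψ` with `Ut → L` is the injective map
`productMap γ φ`.  So `Ut → L` is injective on the image, hence `G` is injective. -/
def S_CORE : Prop := ∀ (k F B R L : Type u) [Field k] [Field F] [Algebra k F] [CommRing B]
  [Algebra k B] [Algebra.Smooth k B] [CommRing R] [Algebra k R] (d : ℕ)
  (j : Fin (d + 1) → (B →ₐ[k] R)), IsCop k j → ∀ [Field L] [Algebra k L] (φ : F →ₐ[k] L)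
  (γ : R →ₐ[k] L) (T : Matrix (Fin (d + 1)) (Fin (d + 1)) F), (∀ q, T q 0 = 1) → T.det ≠ 0 →
  ∀ (σ : Type) [Finite σ] (a : σ → F), AlgebraicIndependent k a →
  ∀ D : MulData d (MvPolynomial σ k),
  (∀ q i l, T q i * T q l = ∑ m, T q m * MvPolynomial.aeval a (D.F i m l)) →
  Function.Injective (Algebra.TensorProduct.productMap γ φ) →
  ∃ G : UU k B D →ₐ[k] L, Function.Injective G ∧
    (∀ b m, G ((Uhom k B D b).v m) = ((T.map φ)⁻¹ *ᵥ fun q => γ (j q b)) m) ∧
    ∀ s, G (algebraMap (MvPolynomial σ k) (UU k B D) (MvPolynomial.X s)) = φ (a s)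

/-- TASK D.  The universal algebra for the generic basis of functions on four points.
Proof.  Apply `hCORE` with `d = 3`, `σ = Fin 12`, `F = FractionRing (MvPolynomial (Fin 4 × Fin 3) k)`,
`T = Tg k`, `a = par (Tg k)` (independent by `hIND`, which also gives `det ≠ 0` and
`pL (sc T) 2 ≠ 0`), and `D` with the matrices `DF X` for `X = MvPolynomial.X : Fin 12 → _`
(`MulData` by `hCOMM`; note `DF X 0 = 1`).  The hypothesis on `T` and `D` is `hSTR` for `T`, as
`DF` is natural: `DF (fun s => f (a s)) i = (DF a i).map f` for ring homomorphisms `f` (here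
`aeval a`).  Let `U = UU k B D`, smooth over `k` by `UU_smooth_base`, `yU b = (Uhom k B D b).v`,
`aU s = algebraMap _ _ (X s)`.  `par`, `sc`, `co` commute with the field homomorphism `φ`
(`Matrix.map_inv`-type lemma: `(T.map φ)⁻¹ = T⁻¹.map φ`, use `Matrix.inv_eq_right_inv`), so
`par (T.map φ) s = φ (par T s)`.  Universality: given `C`, `a'`, `f` with `IsHomF`, `C` is a
`P`-algebra by `aeval a'`, the matrices of `DU D C` are `DF a' i`, so `b ↦ ⟨f b⟩` is a homomorphism
`B →ₐ[k] Al (DU D C)` (`f 1 = Pi.single 0 1` is the third condition for `c = 1`), and `Ulift` gives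
`π`. -/
def S_D : Prop := ∀ (k B R L : Type u) [Field k] [CommRing B] [Algebra k B] [Algebra.Smooth k B]
  [CommRing R] [Algebra k R] (j : Fin 4 → (B →ₐ[k] R)), IsCop k j → ∀ [Field L] [Algebra k L]
  (φ : FractionRing (MvPolynomial (Fin 4 × Fin 3) k) →ₐ[k] L) (γ : R →ₐ[k] L),
  Function.Injective (Algebra.TensorProduct.productMap γ φ) →
  ∀ ev : B →ₐ[k] (Fin 4 → L), (∀ b q, ev b q = γ (j q b)) →
  ∃ (U : Type u) (_ : CommRing U) (_ : Algebra k U) (G : U →ₐ[k] L) (yU : B → Fin 4 → U)
    (aU : Fin 12 → U), IsUniv k ev ((Tg k).map φ) G yU aU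

/-- TASK CH.  The charts are smooth.
Proof.  Let `L = FractionRing (MvPolynomial (Fin 4 × Fin 3) M)`, `ι : M → L` the natural map,
`φ : FractionRing (MvPolynomial (Fin 4 × Fin 3) k) → L` the map induced by `k → M` (it maps the
variables to the variables), `γ' = ι ∘ γ`.  The images `t` of the variables in `L` are
algebraically independent over `M`, hence over `R` (an algebra over which `L` is an algebra by the
injective `γ'`), and `Pool.Agent.H413.RS.tensor_inj` (Pool/Agent/H413/RS/Indep.lean) gives the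
injectivity of `productMap γ' φ`.  By `hD` there is the universal algebra for `T = (Tg k).map φ`
and `ev' = ι ∘ ev`.  By `hIND`, `T.det ≠ 0` and `pL (sc T) 2 ≠ 0` (`sc` and `det` commute with
`φ`).  Apply `hRET`. -/
def S_CH : Prop := ∀ (k B R M : Type u) [Field k] [CommRing B] [Algebra k B] [Algebra.Smooth k B]
  [CommRing R] [Algebra k R] (j : Fin 4 → (B →ₐ[k] R)), IsCop k j → ∀ [Field M] [Algebra k M]
  (γ : R →ₐ[k] M), Function.Injective γ → ∀ ev : B →ₐ[k] (Fin 4 → M),
  (∀ b q, ev b q = γ (j q b)) → ∀ (m : Fin 4 → B), m 0 = 1 → ∀ N : Matrix (Fin 4) (Fin 4) M,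
  (∀ q i, N q i = ev (m i) q) → N.det ≠ 0 → pL (sc N) 2 ≠ 0 → Algebra.Smooth k (CC k ev N)

/-- The products of alternants of functions from a set of functions on four points. -/
def Zp4 {M : Type u} [Field M] (F : Set (Fin 4 → M)) : Set M :=
  {ζ | ∃ (h : Fin 4 → Fin 4 → M) (x y z : Fin 4 → M) (X : Fin 15), (∀ i, h i ∈ F) ∧ x ∈ F ∧
    y ∈ F ∧ z ∈ F ∧ ζ = (Matrix.of fun q i => h i q).det * Lam (cols x y z) X}

/-- The functions `f` such that `f u ^ e` is in the image of `B` for some `e`. -/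
def LocF {k B M : Type u} [Field k] [CommRing B] [Algebra k B] [Field M] [Algebra k M] {n : ℕ}
    (ev : B →ₐ[k] (Fin n → M)) (u : B) : Set (Fin n → M) :=
  {f | ∃ (b : B) (e : ℕ), ∀ q, f q * ev u q ^ e = ev b q}

/-- The family `z` (with good indices `S`) of symmetric functions of `n` points of `Spec B`: its
elements are of the type `Zp`, its charts with indices in `S` cover and are smooth, and every
element of type `Zp` for a localization of `B` is a section of the same ideal sheaf. -/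
def IsFam (k : Type u) {B M : Type u} [Field k] [CommRing B] [Algebra k B] [Field M]
    [Algebra k M] {n : ℕ} (ev : B →ₐ[k] (Fin n → M)) (Zp : Set (Fin n → M) → Set M) {I : Type}
    (z : I → M) (S : Set I) : Prop :=
  (∀ i, z i ∈ Esym k ev) ∧ (∀ i, z i ∈ Zp (Set.range ev)) ∧
  (∀ V : ValuationSubring M, (∀ x ∈ Esym k ev, x ∈ V) → ∃ s ∈ S, z s ≠ 0 ∧ ∀ i, z i / z s ∈ V) ∧
  (∀ s ∈ S, z s ≠ 0 → Algebra.Smooth k
    (Esym k ev ⊔ Algebra.adjoin k (Set.range fun i => z i / z s) : Subalgebra k M)) ∧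
  ∀ s ∈ S, z s ≠ 0 → ∀ u : B, (∀ q, ev u q ≠ 0) → ∀ ζ ∈ Zp (LocF ev u), ∃ e : ℕ,
    (∏ q, ev u q) ^ e * (ζ / z s) ∈
      (Esym k ev ⊔ Algebra.adjoin k (Set.range fun i => z i / z s) : Subalgebra k M)

/-- TASK TRC.  Products of two alternants are symmetric functions.
Proof.  For `m m' : Fin n → B` with the matrices `A q r = ev (m r) q`, `A' q r = ev (m' r) q` the
product of the determinants is `det (Aᵀ * A')`, and the entries of this matrix are the traces
`∑ q, ev (m r * m' s) q`.  A trace `∑ q, ev b q` is, up to sign, the coefficient of degree `n - 1` of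
`∏ q, (X - ev b q)` (for `n = 0` everything is trivial: the determinants are `1`), so it is in
`Esym`; a determinant with entries in a subalgebra is in the subalgebra.  Second part: the entries
of `dsc (cols (ev x) (ev y) (ev z))` are determinants of four functions in the image of `ev`
(column `0` is `ev 1`, the new column is the image of a product), and `pL` is a linear combination
with integral coefficients. -/
def S_TRC : Prop := ∀ (k B M : Type u) [Field k] [CommRing B] [Algebra k B] [Field M]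
  [Algebra k M], (∀ (n : ℕ) (ev : B →ₐ[k] (Fin n → M)) (m m' : Fin n → B),
    (Matrix.of fun q i => ev (m i) q).det * (Matrix.of fun q i => ev (m' i) q).det ∈ Esym k ev) ∧
  ∀ (ev : B →ₐ[k] (Fin 4 → M)) (m : Fin 4 → B) (x y z : B) (X : Fin 15),
    (Matrix.of fun q i => ev (m i) q).det * Lam (cols (ev x) (ev y) (ev z)) X ∈ Esym k ev

/-- TASK ZIN.  The quotients of the elements of the family in a chart.
Proof.  Cramer: `Lam N X = det N * pL (sc N) X`.  The first factor `det (h) / det N` is the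
determinant of the matrix of the coordinates `co N (h r)`, in `C`.  `cols x y z = N * G` where the
columns of `G` are `co N 1 = Pi.single 0 1`, `co N x`, `co N y`, `co N z`; `hT` with
`τ = pL (sc N) 2` gives `Lam (cols x y z) X = det N * (τ * c)`, `c ∈ C`, and
`Lam N 2 = det N * τ`. -/
def S_ZIN : Prop := ∀ (M : Type u) [Field M] (C : Subring M) (N : Matrix (Fin 4) (Fin 4) M),
  (∀ q, N q 0 = 1) → N.det ≠ 0 → pL (sc N) 2 ≠ 0 → (∀ X, pL (sc N) X / pL (sc N) 2 ∈ C) →
  ∀ (h : Fin 4 → Fin 4 → M) (x y z : Fin 4 → M), (∀ r i, co N (h r) i ∈ C) →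
  (∀ i, co N x i ∈ C) → (∀ i, co N y i ∈ C) → (∀ i, co N z i ∈ C) → ∀ X,
  Lam N X = N.det * pL (sc N) X ∧
    ((Matrix.of fun q i => h i q).det * Lam (cols x y z) X) / (N.det * Lam N 2) ∈ C

/-- TASK LOCC.  Coordinates of functions with denominators.
Proof.  Let `N q i = ev (m i) q`, `A = N⁻¹ * diagonal (ev u) * N`.  The entry `A i l` is
`(N⁻¹ *ᵥ ev (u * m l)) i`, an element of `C`, `det A = ∏ q, ev u q =: ν ≠ 0` and
`N⁻¹ *ᵥ (g * ev u) = A *ᵥ (N⁻¹ *ᵥ g)` for all `g : Fin n → M`.  If `f q * ev u q ^ e = ev b q` then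
`A ^ e *ᵥ (N⁻¹ *ᵥ f) = N⁻¹ *ᵥ ev b`, so `ν ^ e • (N⁻¹ *ᵥ f) = (adjugate A) ^ e *ᵥ (N⁻¹ *ᵥ ev b)` has
entries in `C`. -/
def S_LOCC : Prop := ∀ (k B M : Type u) [Field k] [CommRing B] [Algebra k B] [Field M]
  [Algebra k M] (n : ℕ) (ev : B →ₐ[k] (Fin n → M)) (m : Fin n → B)
  (N : Matrix (Fin n) (Fin n) M), (∀ q i, N q i = ev (m i) q) → N.det ≠ 0 →
  ∀ C : Subalgebra k M, (∀ b i, (N⁻¹ *ᵥ ev b) i ∈ C) → ∀ u : B, (∀ q, ev u q ≠ 0) →
  ∀ f ∈ LocF ev u, ∃ e : ℕ, ∀ i, (∏ q, ev u q) ^ e * (N⁻¹ *ᵥ f) i ∈ C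

/-- TASK COV.  The charts cover.
Proof.  All values `ev b q` are roots of the monic polynomials `∏ q, (X - ev b q)` with coefficients
in `Esym ⊆ V`, so they are in `V` (valuation rings are integrally closed).  Apply `hVAL` to the
family `ev (w l)`; products `ev (w i) * ev (w j) = ev (w i * w j)` are in the span by the
hypothesis on `w`, and so are `x = ev b0`, `y = ev (b0 ^ 2)`, for which
`fd x y = det (1, x, x ^ 2, x ^ 3) ≠ 0` (Vandermonde, `Matrix.det_vandermonde_ne_zero_iff`).  The
functions `ev b` are in the span, so the last two claims of `hVAL` give those here; `ev` is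
`k`-linear. -/
def S_COV : Prop := ∀ (k B M : Type u) [Field k] (a : k), a ^ 2 ≠ a → ∀ [CommRing B]
  [Algebra k B] [Field M] [Algebra k M] (ev : B →ₐ[k] (Fin 4 → M)) (b0 : B),
  Function.Injective (fun q => ev b0 q) → ∀ (n : ℕ) (w : Fin (n + 1) → B), w 0 = 1 →
  (∀ b, ∃ c : Fin (n + 1) → M, (∀ l, c l ∈ Esym k ev) ∧ ∀ q, ev b q = ∑ l, c l * ev (w l) q) →
  ∀ V : ValuationSubring M, (∀ x ∈ Esym k ev, x ∈ V) →
  ∃ (c c' : Fin 3 → k) (i : Fin 4 → Fin (n + 1)), (∀ l, c l = 0 ∨ c l = 1 ∨ c l = a) ∧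
    (∀ l, c' l = 0 ∨ c' l = 1 ∨ c' l = a) ∧
    ∀ x y : B, x = c 0 • w (i 0) + c 1 • w (i 1) + c 2 • w (i 2) →
    y = c' 0 • w (i 0) + c' 1 • w (i 1) + c' 2 • w (i 2) →
    ∀ N : Matrix (Fin 4) (Fin 4) M, N = cols (ev x) (ev y) (ev (w (i 3))) →
    N.det ≠ 0 ∧ Lam N 2 ≠ 0 ∧
    (∀ h : Fin 4 → B, (Matrix.of fun q r => ev (h r) q).det / N.det ∈ V) ∧
    ∀ x' y' z' : B, ∀ X, Lam (cols (ev x') (ev y') (ev z')) X / Lam N 2 ∈ V

/-- TASK FAM.  The family for four points.
Proof.  By `hSPAN` there is a family `w : Fin (N + 1) → B`, `w 0 = 1`, such that every `ev b` is a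
linear combination of the `ev (w l)` with coefficients in `E = Esym k ev`.  Let `I0` be the
(finite) type of pairs of `c : Fin 3 → Fin 3` (coefficients `0, 1, a`, coded by `Fin 3`) and
`i : Fin 3 → Fin (N + 1)`, and `b (c, i) = ∑ r, c r • w (i r) ∈ B`; every `w l` is of this form.
The index set is `I = (Fin 4 → I0) × (Fin 3 → I0) × Fin 15`,
`z (h, h', X) = det (ev (b (h r)) q)_{q r} * Lam (cols (ev (b (h' 0))) (ev (b (h' 1)))
(ev (b (h' 2)))) X`, and `S` consists of the `(h, h', 2)` with `b (h 0) = 1`,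
`b (h (r+1)) = b (h' r)`; for them `z s = det N * Lam N 2` with `N = cols ...`.
(f1) `z i ∈ E` is `hTRC`.  (f2) is clear (`Lam` of images of `ev`).  (f3) is `hCOV`.
(f4) Let `s ∈ S`, `z s ≠ 0`, `N = cols (ev x) (ev y) (ev t)`, so `det N ≠ 0`,
`pL (sc N) 2 ≠ 0` (`Lam N X = det N * pL (sc N) X`, see `hZIN`).  Claim:
`E ⊔ adjoin k (range (z i / z s)) = CC k ev N`, and then `hCH` applies (with `m = (1, x, y, t)`).
`⊆`: `E ⊆ CC` by `hNORM`; `z i / z s ∈ CC` by `hZIN`.  `⊇`: `co N (ev (w l)) r =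
det (N.updateCol r (ev (w l))) / det N = z i / z s` with `i = (h with h r replaced by w l, h', 2)`
(Cramer); for general `b` use that `ev b` is an `E`-linear combination of the `ev (w l)` and `co N`
is linear.  `pL (sc N) X / pL (sc N) 2 = z (h, h', X) / z s`.
(f5) The subring `C' = {x | ∃ e, (∏ q, ev u q) ^ e * x ∈ CC}` of `M` contains the coordinates of
the elements of `LocF ev u` by `hLOCC` (for `C = CC`), so `ζ / z s ∈ C'` by `hZIN` for `C'`. -/
def S_FAM : Prop := ∀ (k B R M : Type u) [Field k] (a : k), a ^ 2 ≠ a → ∀ [CommRing B]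
  [Algebra k B] [Algebra.Smooth k B] [CommRing R] [Algebra k R] (j : Fin 4 → (B →ₐ[k] R)),
  IsCop k j → ∀ [Field M] [Algebra k M] (γ : R →ₐ[k] M), Function.Injective γ →
  ∀ ev : B →ₐ[k] (Fin 4 → M), (∀ b q, ev b q = γ (j q b)) →
  ∀ b0 : B, Function.Injective (fun q => ev b0 q) →
  ∃ (I : Type) (_ : Finite I) (z : I → M) (S : Set I), IsFam k ev Zp4 z S

end Pool.Agent.H937.QS
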